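import Mathlib
import Pool.Agent.W666.DN.Cross

/-!
# The Frobenius chain of a polynomial congruent to `X ^ q` modulo `p`
-/

set_option autoImplicit false

open Finset Polynomial Module IntermediateField

namespace Pool.Agent.W666.DY

open Pool.Agent.H388SL Pool.Agent.W666.DL Pool.Agent.W666.DM Pool.Agent.W666.DN

/-- the polynomial map on a commutative ring -/
noncomputable abbrev ph {A : Type*} [CommRing A] (f : ℤ[X]) (x : A) : A := aeval x f

lemma ph_hom {A B : Type*} [CommRing A] [CommRing B] (h : A →+* B) (f : ℤ[X]) (n : ℕ) (x : A) :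
    h ((ph f)^[n] x) = (ph f)^[n] (h x) := by
  have h1 : Function.Semiconj h (ph f : A → A) (ph f : B → B) := by
    intro y
    exact (Polynomial.map_aeval_eq_aeval_map (show (algebraMap ℤ B).comp (RingHom.id ℤ) =
      h.comp (algebraMap ℤ A) from RingHom.ext_int _ _) f y).trans (by rw [Polynomial.map_id])
  exact (h1.iterate_right n) x

/-- `f ≡ X ^ q` modulo `p` -/
def Fr (p k : ℕ) (f : ℤ[X]) : Prop := ∃ g : ℤ[X], f = X ^ (p ^ k) + C (p : ℤ) * g

lemma step_w {p k : ℕ} (hp : p.Prime) {f : ℤ[X]} (hf : Fr p k f) {B : Type*} [CommRing B] (y b : B) :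
    ∃ w r : B, ph f y - ph f b = (y - b) * w ∧ w = (y - b) ^ (p ^ k - 1) + p * r := by
  obtain ⟨g, hg⟩ := hf
  obtain ⟨r, hr⟩ := exists_add_pow_prime_pow_eq hp (y - b) b k
  rw [sub_add_cancel] at hr
  obtain ⟨e, he⟩ := Polynomial.sub_dvd_eval_sub y b (g.map (algebraMap ℤ B))
  rw [Polynomial.eval_map_algebraMap, Polynomial.eval_map_algebraMap] at he
  refine ⟨(y - b) ^ (p ^ k - 1) + p * (b * r + e), b * r + e, ?_, rfl⟩
  have h1 : ∀ x : B, ph f x = x ^ (p ^ k) + p * aeval x g := by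
    intro x
    rw [ph, hg, map_add, map_mul, map_pow, aeval_X, aeval_C]
    simp
  rw [h1, h1, hr]
  have h2 : (y - b) ^ p ^ k = (y - b) * (y - b) ^ (p ^ k - 1) := by
    rw [← pow_succ']
    congr 1
    have := Nat.pow_pos (n := k) hp.pos
    omega
  rw [h2]
  linear_combination (p : B) * he

lemma chain_dvd {p k : ℕ} (hp : p.Prime) (hk : 0 < k) {f : ℤ[X]} (hf : Fr p k f) {B : Type*}
    [CommRing B] {ι : Type*} (s : Finset ι) (b : ι → B) (y : B)
    (h0 : (p : B) ∣ ∏ σ ∈ s, (y - b σ)) (i : ℕ) :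
    (p : B) ^ (i + 1) ∣ ∏ σ ∈ s, ((ph f)^[i] y - (ph f)^[i] (b σ)) := by
  induction i with
  | zero => simpa using h0
  | succ i ih =>
    choose w r hw1 hw2 using fun σ => step_w hp hf ((ph f)^[i] y) ((ph f)^[i] (b σ))
    have h1 : ∏ σ ∈ s, ((ph f)^[i + 1] y - (ph f)^[i + 1] (b σ)) =
        (∏ σ ∈ s, ((ph f)^[i] y - (ph f)^[i] (b σ))) * ∏ σ ∈ s, w σ := by
      rw [← Finset.prod_mul_distrib]
      refine Finset.prod_congr rfl fun σ _ => ?_
      rw [Function.iterate_succ_apply', Function.iterate_succ_apply', hw1]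
    have h2 : (p : B) ∣ ∏ σ ∈ s, w σ := by
      set I := Ideal.span {(p : B)} with hI
      rw [← Ideal.Quotient.eq_zero_iff_dvd]
      have h3 : (Ideal.Quotient.mk I) (∏ σ ∈ s, w σ) =
          (Ideal.Quotient.mk I) ((∏ σ ∈ s, ((ph f)^[i] y - (ph f)^[i] (b σ))) ^ (p ^ k - 1)) := by
        rw [← Finset.prod_pow, map_prod, map_prod]
        refine Finset.prod_congr rfl fun σ _ => ?_
        rw [hw2 σ, map_add, map_mul]
        have h4 : (Ideal.Quotient.mk I) (p : B) = 0 := by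
          rw [Ideal.Quotient.eq_zero_iff_mem, hI]
          exact Ideal.mem_span_singleton_self _
        rw [h4, zero_mul, add_zero]
      rw [h3, Ideal.Quotient.eq_zero_iff_dvd]
      have h5 : (p : B) ∣ ∏ σ ∈ s, ((ph f)^[i] y - (ph f)^[i] (b σ)) :=
        (dvd_pow_self _ (Nat.succ_ne_zero i)).trans ih
      apply h5.trans
      apply dvd_pow_self
      have h6 : p ^ 1 ≤ p ^ k := Nat.pow_le_pow_right hp.pos hk
      have h7 := hp.two_le
      rw [pow_one] at h6
      omega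
    rw [h1, pow_succ]
    exact mul_dvd_mul ih h2

lemma dvd_ph {p k : ℕ} (hp : p.Prime) {f : ℤ[X]} (hf : Fr p k f) {B : Type*} [CommRing B]
    (F : ℤ[X]) (b : B) (h : (p : B) ∣ aeval b F) : (p : B) ∣ aeval (ph f b) F := by
  have : Fact p.Prime := ⟨hp⟩
  obtain ⟨g, hg⟩ := hf
  have h1 : ∀ j : ℕ, (p : B) ∣ aeval (b ^ (p ^ j)) F := by
    intro j
    induction j with
    | zero => simpa using h
    | succ j ih =>
      obtain ⟨v, hv⟩ := expand_eq p F
      have h2 : aeval (b ^ (p ^ (j + 1))) F = (aeval (b ^ (p ^ j)) F) ^ p +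
          (p : B) * aeval (b ^ (p ^ j)) v := by
        rw [pow_succ p j, pow_mul, ← Polynomial.expand_aeval, hv, map_add, map_mul, map_pow, aeval_C]
        simp
      rw [h2]
      exact dvd_add (dvd_pow ih hp.ne_zero) (dvd_mul_right _ _)
  have h2 : ph f b = b ^ (p ^ k) + p * aeval b g := by
    rw [ph, hg, map_add, map_mul, map_pow, aeval_X, aeval_C]
    simp
  have h3 : ph f b - b ^ (p ^ k) ∣ aeval (ph f b) F - aeval (b ^ (p ^ k)) F := by
    have h4 := Polynomial.sub_dvd_eval_sub (ph f b) (b ^ (p ^ k)) (F.map (algebraMap ℤ B))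
    rwa [Polynomial.eval_map_algebraMap, Polynomial.eval_map_algebraMap] at h4
  have h5 : (p : B) ∣ ph f b - b ^ (p ^ k) := ⟨aeval b g, by rw [h2]; ring⟩
  have h6 := (h5.trans h3).add (h1 k)
  rwa [sub_add_cancel] at h6

lemma dvd_ph_iter {p k : ℕ} (hp : p.Prime) {f : ℤ[X]} (hf : Fr p k f) {B : Type*} [CommRing B]
    (F : ℤ[X]) (b : B) (h : (p : B) ∣ aeval b F) (m : ℕ) : (p : B) ∣ aeval ((ph f)^[m] b) F := by
  induction m with
  | zero => exact h
  | succ m ih =>
    rw [Function.iterate_succ_apply']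
    exact dvd_ph hp hf F _ ih

variable {K : Type*} [Field K] [NumberField K]

lemma integral_ph {x : K} (hx : IsIntegral ℤ x) (f : ℤ[X]) (n : ℕ) :
    IsIntegral ℤ ((ph f)^[n] x) := by
  induction n with
  | zero => exact hx
  | succ n ih =>
    rw [Function.iterate_succ_apply']
    exact isIntegral_aevalZ ih f

/-- the values of the minimal polynomial along the orbit -/
theorem dvd_min {p k : ℕ} (hp : p.Prime) (hk : 0 < k) {f : ℤ[X]} (hf : Fr p k f) {β : K}
    (hβ : IsIntegral ℤ β) {i j : ℕ} (hij : i < j) (hc : CInj ((ph f)^[i] β)) :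
    ∃ w : K, IsIntegral ℤ w ∧
      aeval ((ph f)^[j] β) (minpoly ℤ ((ph f)^[i] β)) = (p : K) ^ (i + 1) * w := by
  obtain ⟨τ⟩ : Nonempty (K →ₐ[ℚ] ℂ) := ⟨IsAlgClosed.lift⟩
  have hcβ : CInj β := by
    intro σ ρ h
    apply hc
    have h' : σ β = ρ β := h
    change σ ((ph f)^[i] β) = ρ ((ph f)^[i] β)
    have e1 := ph_hom (σ : K →+* ℂ) f i β
    have e2 := ph_hom (ρ : K →+* ℂ) f i β
    exact e1.trans ((congrArg _ h').trans e2.symm)
  have hγi := integral_ph hβ f i
  set B := integralClosure ℤ ℂ with hB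
  have hmem : ∀ σ : K →ₐ[ℚ] ℂ, σ β ∈ B := fun σ => hβ.map (σ.restrictScalars ℤ)
  set b : (K →ₐ[ℚ] ℂ) → B := fun σ => ⟨σ β, hmem σ⟩ with hb
  have hcoe : ∀ (n : ℕ) (x : B), (((ph f)^[n] x : B) : ℂ) = (ph f)^[n] (x : ℂ) :=
    fun n x => ph_hom (algebraMap B ℂ) f n x
  have hcoe' : ∀ (x : B) (F : ℤ[X]), ((aeval x F : B) : ℂ) = aeval (x : ℂ) F := by
    intro x F
    exact (Polynomial.aeval_algHom_apply (B.val) x F).symm
  set y : B := (ph f)^[j - i] (b τ) with hy
  have h0 : (p : B) ∣ ∏ σ, (y - b σ) := by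
    have h1 : aeval y (minpoly ℤ β) = ∏ σ, (y - b σ) := by
      apply Subtype.ext
      rw [hcoe', aeval_minpolyZ_eq hβ hcβ]
      push_cast
      rfl
    rw [← h1, hy]
    apply dvd_ph_iter hp hf
    have h2 : aeval (b τ) (minpoly ℤ β) = 0 := by
      apply Subtype.ext
      rw [hcoe']
      change aeval (τ β) (minpoly ℤ β) = 0
      rw [← map_aevalZ, minpoly.aeval, map_zero]
    rw [h2]
    exact dvd_zero _
  obtain ⟨w', hw'⟩ := chain_dvd hp hk hf Finset.univ b y h0 i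
  have hji : (ph f)^[i] y = (ph f)^[j] (b τ) := by
    rw [hy, ← Function.iterate_add_apply]
    congr 1
    omega
  have h3 : τ (aeval ((ph f)^[j] β) (minpoly ℤ ((ph f)^[i] β))) = (p : ℂ) ^ (i + 1) * w' := by
    rw [map_aevalZ, aeval_minpolyZ_eq hγi hc]
    have h4 := congrArg (fun x : B => (x : ℂ)) hw'
    push_cast at h4
    rw [← h4]
    refine Finset.prod_congr rfl fun σ _ => ?_
    rw [hji, hcoe, hcoe]
    have e1 := ph_hom (τ : K →+* ℂ) f j β
    have e2 := ph_hom (σ : K →+* ℂ) f i β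
    exact congrArg₂ _ e1 e2
  have hpK : (p : K) ≠ 0 := by exact_mod_cast hp.ne_zero
  refine ⟨aeval ((ph f)^[j] β) (minpoly ℤ ((ph f)^[i] β)) / (p : K) ^ (i + 1), ?_, ?_⟩
  · have h5 : τ (aeval ((ph f)^[j] β) (minpoly ℤ ((ph f)^[i] β)) / (p : K) ^ (i + 1)) = w' := by
      rw [map_div₀, h3, map_pow, map_natCast]
      have : (p : ℂ) ≠ 0 := by exact_mod_cast hp.ne_zero
      field_simp
    have h6 : IsIntegral ℤ (τ (aeval ((ph f)^[j] β) (minpoly ℤ ((ph f)^[i] β)) /
        (p : K) ^ (i + 1))) := by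
      rw [h5]; exact w'.2
    exact (isIntegral_algHom_iff (τ.restrictScalars ℤ) τ.injective).mp h6
  · field_simp

/-- conjugates of different points of an infinite orbit are different -/
lemma conj_ne_dyn (f : ℤ[X]) {β : K} (hw : Function.Injective fun n : ℕ => (ph f)^[n] β) {i j : ℕ}
    (hij : i < j) (σ τ : K →ₐ[ℚ] ℂ) : σ ((ph f)^[j] β) ≠ τ ((ph f)^[i] β) := by
  intro h
  set m := j - i with hm
  have hj : ∀ x : K, (ph f)^[j] x = (ph f)^[m] ((ph f)^[i] x) := by
    intro x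
    rw [← Function.iterate_add_apply]
    congr 1
    omega
  set γ := (ph f)^[i] β with hγ
  have hmin : minpoly ℚ ((ph f)^[j] β) = minpoly ℚ γ := by
    have h1 : minpoly ℚ (σ ((ph f)^[j] β)) = minpoly ℚ ((ph f)^[j] β) := minpoly.algHom_eq σ σ.injective _
    have h2 : minpoly ℚ (τ γ) = minpoly ℚ γ := minpoly.algHom_eq τ τ.injective _
    rw [← h1, ← h2, h]
  have hrange : ∀ x : K, (Set.range fun ψ : K →ₐ[ℚ] ℂ => ψ x) = (minpoly ℚ x).rootSet ℂ :=
    fun x => Algebra.IsAlgebraic.range_eval_eq_rootSet_minpoly ℂ x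
  have key : ∀ (s : ℕ) (ρ : K →ₐ[ℚ] ℂ), ρ ((ph f)^[s * m] γ) ∈ Set.range fun ψ : K →ₐ[ℚ] ℂ => ψ γ := by
    intro s
    induction s with
    | zero => intro ρ; exact ⟨ρ, by simp⟩
    | succ s ih =>
      intro ρ
      have h3 : ρ ((ph f)^[j] β) ∈ Set.range fun ψ : K →ₐ[ℚ] ℂ => ψ γ := by
        rw [hrange, ← hmin, ← hrange]
        exact ⟨ρ, rfl⟩
      obtain ⟨ρ', hρ'⟩ := h3
      have h4 : ρ ((ph f)^[(s + 1) * m] γ) = ρ' ((ph f)^[s * m] γ) := by
        rw [Nat.succ_mul, Function.iterate_add_apply]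
        have e1 := ph_hom (ρ : K →+* ℂ) f (s * m) ((ph f)^[m] γ)
        have e2 := ph_hom (ρ' : K →+* ℂ) f (s * m) γ
        have e3 : ρ ((ph f)^[m] γ) = ρ' γ := by
          rw [hj] at hρ'
          exact hρ'.symm
        exact e1.trans ((congrArg _ e3).trans e2.symm)
      rw [h4]
      exact ih ρ'
  have hfin : (Set.range fun ψ : K →ₐ[ℚ] ℂ => ψ γ).Finite := Set.finite_range _
  have hinj : Function.Injective fun s : ℕ => σ ((ph f)^[s * m] γ) := by
    intro s t hst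
    have h5 : (ph f)^[s * m] γ = (ph f)^[t * m] γ := σ.injective hst
    rw [hγ, ← Function.iterate_add_apply, ← Function.iterate_add_apply] at h5
    have h6 := hw h5
    have h7 : s * m = t * m := by omega
    exact Nat.eq_of_mul_eq_mul_right (by omega) h7
  exact (Set.infinite_of_injective_forall_mem hinj fun s => key s σ) hfin

/-- mutual energies along the orbit -/
theorem cross_dyn {p k : ℕ} (hp : p.Prime) (hk : 0 < k) {f : ℤ[X]} (hf : Fr p k f) {β : K}
    (hβ : IsIntegral ℤ β) (hw : Function.Injective fun n : ℕ => (ph f)^[n] β)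
    {i j : ℕ} (hij : i < j) (hc : CInj ((ph f)^[i] β)) :
    ((i : ℝ) + 1) * (finrank ℚ K * Real.log p) ≤ II ((ph f)^[j] β) ((ph f)^[i] β) := by
  have hne := conj_ne_dyn f hw hij
  have hγ := integral_ph hβ f i
  rw [II_eq hγ hne, rr_one hc, Nat.cast_one, one_mul]
  obtain ⟨w, hwi, h1⟩ := dvd_min hp hk hf hβ hij hc
  have h2 := aeval_ne hγ hne
  rw [h1] at h2 ⊢
  have hw0 : w ≠ 0 := right_ne_zero_of_mul h2
  rw [NL_mul (left_ne_zero_of_mul h2) hw0, NL_pow, NL_natCast]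
  have := NL_nonneg hwi hw0
  push_cast
  linarith

end Pool.Agent.W666.DY
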