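import Mathlib

/-!
# Green functions of monic integer polynomials and an energy bound
-/

set_option autoImplicit false

open Polynomial Filter Topology Finset

namespace Pool.Agent.W666.DY

lemma growth (f : ℤ[X]) (hf : f.Monic) (hq : 0 < f.natDegree) :
    ∃ C : ℝ, 0 ≤ C ∧ ∀ z : ℂ,
      |Real.posLog ‖aeval z f‖ - f.natDegree * Real.posLog ‖z‖| ≤ C := by
  set q := f.natDegree with hqdef
  set S : ℝ := ∑ i ∈ range q, ‖((f.coeff i : ℤ) : ℂ)‖ with hS
  have hS0 : 0 ≤ S := Finset.sum_nonneg fun _ _ => norm_nonneg _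
  set B : ℝ := 2 * (S + 1) with hB
  have hB2 : 2 ≤ B := by linarith
  have hB1 : 1 ≤ B := by linarith
  refine ⟨q * Real.log B, mul_nonneg (Nat.cast_nonneg _) (Real.log_nonneg hB1), fun z => ?_⟩
  set M : ℝ := max 1 ‖z‖ with hM
  have hM1 : 1 ≤ M := le_max_left _ _
  have hzM : ‖z‖ ≤ M := le_max_right _ _
  have hM0 : 0 < M := by linarith
  set F : ℂ := aeval z f with hF
  set T : ℂ := ∑ i ∈ range q, ((f.coeff i : ℤ) : ℂ) * z ^ i with hT
  have hFe : F = z ^ q + T := by
    rw [hF, Polynomial.aeval_eq_sum_range, Finset.sum_range_succ, ← hqdef]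
    have h1 : f.coeff q = 1 := by rw [hqdef]; exact hf
    rw [h1, one_smul, add_comm]
    congr 1
    refine Finset.sum_congr rfl fun i _ => ?_
    rw [zsmul_eq_mul]
  have hTle : ‖T‖ ≤ S * M ^ (q - 1) := by
    rw [hS, Finset.sum_mul]
    refine (norm_sum_le _ _).trans (Finset.sum_le_sum fun i hi => ?_)
    rw [norm_mul, norm_pow]
    apply mul_le_mul_of_nonneg_left _ (norm_nonneg _)
    calc ‖z‖ ^ i ≤ M ^ i := pow_le_pow_left₀ (norm_nonneg _) hzM i
      _ ≤ M ^ (q - 1) := pow_le_pow_right₀ hM1 (by rw [Finset.mem_range] at hi; omega)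
  have hMq : M ^ (q - 1) * M = M ^ q := by
    rw [← pow_succ]; congr 1; omega
  have hMq1 : M ^ (q - 1) ≤ M ^ q := pow_le_pow_right₀ hM1 (by omega)
  have hMq0 : 1 ≤ M ^ q := one_le_pow₀ hM1
  have hBq : B ≤ B ^ q := by
    calc B = B ^ 1 := (pow_one B).symm
      _ ≤ B ^ q := pow_le_pow_right₀ hB1 hq
  have hup : max 1 ‖F‖ ≤ B ^ q * M ^ q := by
    have h1 : ‖F‖ ≤ M ^ q + S * M ^ q := by
      rw [hFe]
      refine (norm_add_le _ _).trans (add_le_add ?_ ?_)
      · rw [norm_pow]; exact pow_le_pow_left₀ (norm_nonneg _) hzM q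
      · exact hTle.trans (mul_le_mul_of_nonneg_left hMq1 hS0)
    have h2 : B * M ^ q ≤ B ^ q * M ^ q := mul_le_mul_of_nonneg_right hBq (by linarith)
    apply max_le
    · nlinarith
    · nlinarith
  have hlo : M ^ q ≤ B ^ q * max 1 ‖F‖ := by
    by_cases hc : M ≤ B
    · calc M ^ q ≤ B ^ q := pow_le_pow_left₀ hM0.le hc q
        _ = B ^ q * 1 := (mul_one _).symm
        _ ≤ B ^ q * max 1 ‖F‖ := mul_le_mul_of_nonneg_left (le_max_left _ _) (by positivity)
    · push Not at hc
      have hzM' : ‖z‖ = M := by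
        rcases max_choice 1 ‖z‖ with h | h
        · rw [hM, h] at hc; linarith
        · rw [hM, h]
      have h1 : M ^ q - S * M ^ (q - 1) ≤ ‖F‖ := by
        rw [hFe]
        have h2 := norm_sub_norm_le (z ^ q) (-T)
        rw [sub_neg_eq_add, norm_neg, norm_pow, hzM'] at h2
        linarith
      have h3 : S * M ^ (q - 1) ≤ M ^ q / 2 := by
        have h4 : 2 * S ≤ M := by linarith
        have h5 : 0 ≤ M ^ (q - 1) := by positivity
        rw [← hMq]
        nlinarith
      have h6 : M ^ q ≤ 2 * ‖F‖ := by linarith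
      have h7 : ‖F‖ ≤ max 1 ‖F‖ := le_max_right _ _
      have h8 : 0 ≤ max 1 ‖F‖ := le_trans zero_le_one (le_max_left _ _)
      calc M ^ q ≤ 2 * ‖F‖ := h6
        _ ≤ 2 * max 1 ‖F‖ := by linarith
        _ ≤ B ^ q * max 1 ‖F‖ := mul_le_mul_of_nonneg_right (by linarith) h8
  rw [Real.posLog_eq_log_max_one (norm_nonneg _), Real.posLog_eq_log_max_one (norm_nonneg _), ← hM]
  have hX : (0:ℝ) < max 1 ‖F‖ := lt_of_lt_of_le one_pos (le_max_left _ _)
  have l1 := Real.log_le_log hX hup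
  have l2 := Real.log_le_log (by positivity) hlo
  rw [Real.log_mul (by positivity) (by positivity), Real.log_pow, Real.log_pow] at l1
  rw [Real.log_mul (by positivity) hX.ne', Real.log_pow, Real.log_pow] at l2
  rw [abs_le]
  constructor <;> linarith

/-- the Green function -/
theorem exists_green (f : ℤ[X]) (hf : f.Monic) (hq : 2 ≤ f.natDegree) :
    ∃ (G : ℂ → ℝ) (C : ℝ), 0 ≤ C ∧ (∀ z, 0 ≤ G z) ∧
      (∀ z : ℂ, Tendsto (fun n : ℕ => Real.posLog ‖(fun x : ℂ => aeval x f)^[n] z‖ /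
        (f.natDegree : ℝ) ^ n) atTop (𝓝 (G z))) ∧
      (∀ z, |Real.posLog ‖z‖ - G z| ≤ C) ∧ (∀ z : ℂ, G (aeval z f) = f.natDegree * G z) ∧
      (∀ z : ℂ, |Real.posLog ‖aeval z f‖ - f.natDegree * Real.posLog ‖z‖| ≤ C) := by
  obtain ⟨C, hC, hg⟩ := growth f hf (by omega)
  set q := f.natDegree with hqdef
  have hq2 : (2:ℝ) ≤ q := by exact_mod_cast hq
  have hq0 : (0:ℝ) < q := by linarith
  set a : ℂ → ℕ → ℝ := fun z n => Real.posLog ‖(fun x : ℂ => aeval x f)^[n] z‖ / (q : ℝ) ^ n with ha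
  have hdist : ∀ z n, dist (a z n) (a z (n + 1)) ≤ (C / 2) * (1 / 2) ^ n := by
    intro z n
    rw [ha]
    dsimp only
    rw [Function.iterate_succ_apply']
    set w : ℂ := (fun x : ℂ => aeval x f)^[n] z with hw
    have h1 := hg w
    rw [Real.dist_eq]
    have h2 : Real.posLog ‖w‖ / (q : ℝ) ^ n - Real.posLog ‖aeval w f‖ / (q : ℝ) ^ (n + 1) =
        -(Real.posLog ‖aeval w f‖ - q * Real.posLog ‖w‖) / (q : ℝ) ^ (n + 1) := by
      field_simp
      ring
    rw [h2, abs_div, abs_neg, abs_of_pos (show (0:ℝ) < (q : ℝ) ^ (n + 1) by positivity)]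
    have h3 : (2:ℝ) ^ (n + 1) ≤ (q : ℝ) ^ (n + 1) := pow_le_pow_left₀ (by norm_num) hq2 _
    have h4 : (C / 2) * (1 / 2) ^ n = C / 2 ^ (n + 1) := by
      rw [one_div, inv_pow, pow_succ]; field_simp
    rw [h4]
    exact div_le_div₀ hC h1 (by positivity) h3
  have hlim : ∀ z, ∃ g, Tendsto (a z) atTop (𝓝 g) := fun z =>
    cauchySeq_tendsto_of_complete (cauchySeq_of_le_geometric (1 / 2) (C / 2) (by norm_num) (hdist z))
  choose G hG using hlim
  refine ⟨G, C, hC, fun z => ?_, hG, fun z => ?_, fun z => ?_, hg⟩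
  · refine ge_of_tendsto' (hG z) fun n => ?_
    exact div_nonneg Real.posLog_nonneg (by positivity)
  · have h1 := dist_le_of_le_geometric_of_tendsto₀ (1 / 2) (C / 2) (by norm_num) (hdist z) (hG z)
    have h2 : a z 0 = Real.posLog ‖z‖ := by rw [ha]; simp
    rw [h2, Real.dist_eq] at h1
    refine h1.trans (le_of_eq ?_)
    ring
  · have h1 := hG (aeval z f)
    have h2 : Tendsto (fun n => (q:ℝ) * a z (n + 1)) atTop (𝓝 (q * G z)) :=
      ((tendsto_add_atTop_iff_nat 1).mpr (hG z)).const_mul _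
    have h3 : (fun n => (q:ℝ) * a z (n + 1)) = a (aeval z f) := by
      funext n
      rw [ha]
      dsimp only
      rw [Function.iterate_succ_apply, pow_succ]
      field_simp
    rw [h3] at h2
    exact tendsto_nhds_unique h1 h2

/-- a basis of monic polynomials of controlled size -/
lemma exists_basis (f : ℤ[X]) (hf : f.Monic) (hq : 2 ≤ f.natDegree) {G : ℂ → ℝ} {C : ℝ}
    (hC : 0 ≤ C) (hG1 : ∀ z : ℂ, Real.posLog ‖z‖ ≤ G z + C)
    (hG2 : ∀ z : ℂ, G (aeval z f) = f.natDegree * G z) (k : ℕ) :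
    ∃ P : ℂ[X], P.Monic ∧ P.natDegree = k ∧
      ∀ z : ℂ, Real.posLog ‖P.eval z‖ ≤ k * G z + f.natDegree * C * (Nat.log 2 k + 1) := by
  set q := f.natDegree with hqdef
  have hq2 : (2:ℝ) ≤ q := by exact_mod_cast hq
  have hqC : 0 ≤ (q:ℝ) * C := by positivity
  induction k using Nat.strong_induction_on with
  | _ k ih =>
    have hXpow : ∀ (a : ℕ), a ≤ q → ∀ z : ℂ, Real.posLog ‖z ^ a‖ ≤ a * G z + q * C := by
      intro a ha z
      rw [norm_pow, Real.posLog_pow]
      have h1 := hG1 z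
      have h2 : (a:ℝ) ≤ q := by exact_mod_cast ha
      have h3 := mul_le_mul_of_nonneg_left h1 (Nat.cast_nonneg a : (0:ℝ) ≤ a)
      have h4 := mul_le_mul_of_nonneg_right h2 hC
      linarith
    by_cases hk : k < q
    · refine ⟨X ^ k, monic_X_pow k, natDegree_X_pow k, fun z => ?_⟩
      rw [eval_pow, eval_X]
      have h1 := hXpow k hk.le z
      have h2 : (0:ℝ) ≤ Nat.log 2 k := Nat.cast_nonneg _
      have h3 : 0 ≤ (q:ℝ) * C * Nat.log 2 k := mul_nonneg hqC h2
      linarith
    · push Not at hk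
      have hq0 : 0 < q := by omega
      have hk0 : 0 < k := by omega
      set k' := k / q with hk'
      set a := k % q with ha
      have hka : q * k' + a = k := Nat.div_add_mod k q
      have hk'1 : 1 ≤ k' := (Nat.one_le_div_iff hq0).mpr hk
      have hk'k : k' < k := Nat.div_lt_self hk0 (by omega)
      obtain ⟨P, hPm, hPd, hPz⟩ := ih k' hk'k
      set fc : ℂ[X] := f.map (Int.castRingHom ℂ) with hfc
      have hfcm : fc.Monic := hf.map _
      have hfcd : fc.natDegree = q := hf.natDegree_map _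
      refine ⟨X ^ a * P.comp fc, (monic_X_pow a).mul (hPm.comp hfcm (by omega)), ?_, fun z => ?_⟩
      · rw [(monic_X_pow a).natDegree_mul (hPm.comp hfcm (by omega)), natDegree_X_pow,
          natDegree_comp, hPd, hfcd]
        rw [← hka]; ring
      · have hfz : fc.eval z = aeval z f := by
          rw [hfc, Polynomial.eval_map, Polynomial.aeval_def]
          rfl
        rw [eval_mul, eval_pow, eval_X, eval_comp, norm_mul, hfz]
        have h1 := hXpow a (Nat.mod_lt _ hq0).le z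
        have h2 := hPz (aeval z f)
        rw [hG2] at h2
        have h3 := Real.posLog_mul (x := ‖z ^ a‖) (y := ‖P.eval (aeval z f)‖)
        have h4 : Nat.log 2 k' + 1 ≤ Nat.log 2 k := by
          have h5 : k' ≤ k / 2 := Nat.div_le_div_left hq (by norm_num)
          have h6 : Nat.log 2 k' ≤ Nat.log 2 (k / 2) := Nat.log_mono_right h5
          have h7 : Nat.log 2 (k / 2) = Nat.log 2 k - 1 := Nat.log_div_base 2 k
          have h8 : 0 < Nat.log 2 k := Nat.log_pos (by norm_num) (by omega)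
          omega
        have h4' : ((Nat.log 2 k' : ℝ) + 1) ≤ Nat.log 2 k := by exact_mod_cast h4
        have h5 := mul_le_mul_of_nonneg_left h4' hqC
        have h6 : (k:ℝ) = q * k' + a := by exact_mod_cast hka.symm
        rw [h6]
        nlinarith

end Pool.Agent.W666.DY
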