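import Mathlib
import Pool.Agent.W666.DY.Green

/-!
# The energy of a finite set of points against the Green function
-/

set_option autoImplicit false

open Polynomial Filter Topology Finset

namespace Pool.Agent.W666.DY

/-- a symmetric sum with zero diagonal -/
lemma sum_symm {N : ℕ} (F : Fin N → Fin N → ℝ) (hs : ∀ i j, F i j = F j i) (h0 : ∀ i, F i i = 0) :
    ∑ i, ∑ j, F i j = 2 * ∑ i, ∑ j ∈ Ioi i, F i j := by
  have h1 : ∀ i, ∑ j, F i j = ∑ j ∈ Ioi i, F i j + ∑ j ∈ Iio i, F i j := by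
    intro i
    have h2 : (Finset.univ : Finset (Fin N)) = (Ioi i ∪ Iio i) ∪ {i} := by
      ext j
      simp only [Finset.mem_univ, Finset.mem_union, Finset.mem_Ioi, Finset.mem_Iio,
        Finset.mem_singleton, true_iff]
      rcases lt_trichotomy i j with h | h | h
      · exact Or.inl (Or.inl h)
      · exact Or.inr h.symm
      · exact Or.inl (Or.inr h)
    rw [h2, Finset.sum_union, Finset.sum_union, Finset.sum_singleton, h0, add_zero]
    · rw [Finset.disjoint_left]
      intro j hj hj'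
      rw [Finset.mem_Ioi] at hj
      rw [Finset.mem_Iio] at hj'
      exact absurd hj (not_lt.mpr hj'.le)
    · rw [Finset.disjoint_left]
      intro j hj hj'
      rw [Finset.mem_singleton] at hj'
      subst hj'
      simp at hj
  have h3 : ∑ i, ∑ j ∈ Iio i, F i j = ∑ i, ∑ j ∈ Ioi i, F i j := by
    rw [Finset.sum_comm' (t' := Finset.univ) (s' := fun j => Ioi j) (by
      intro i j
      simp)]
    refine Finset.sum_congr rfl fun i _ => Finset.sum_congr rfl fun j _ => hs j i
  rw [Finset.sum_congr rfl fun i _ => h1 i, Finset.sum_add_distrib, h3]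
  ring

/-- the energy bound -/
theorem energy_fin (f : ℤ[X]) (hf : f.Monic) (hq : 2 ≤ f.natDegree) {G : ℂ → ℝ} {C : ℝ}
    (hC : 0 ≤ C) (hG0 : ∀ z, 0 ≤ G z) (hG1 : ∀ z : ℂ, Real.posLog ‖z‖ ≤ G z + C)
    (hG2 : ∀ z : ℂ, G (aeval z f) = f.natDegree * G z) {N : ℕ}
    (z : Fin N → ℂ) (hz : Function.Injective z) :
    ∑ i, ∑ j, Real.log ‖z i - z j‖ ≤
      2 * (N * ∑ i, G (z i) + N * (Real.log N + f.natDegree * C * (Nat.log 2 N + 1))) := by
  set q := f.natDegree with hqdef
  have hqC : 0 ≤ (q:ℝ) * C := by positivity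
  choose P hPm hPd hPz using exists_basis f hf hq hC hG1 hG2
  set E : ℝ := q * C * (Nat.log 2 N + 1) with hE
  set R : Fin N → ℝ := fun i => Real.exp (N * G (z i) + E) with hR
  have hentry : ∀ (i : Fin N) (j : Fin N), ‖(P j).eval (z i)‖ ≤ R i := by
    intro i j
    have h1 := hPz j (z i)
    have hj : (j : ℕ) ≤ N := j.2.le
    have h2 : ((j : ℕ) : ℝ) ≤ N := by exact_mod_cast hj
    have h3 := mul_le_mul_of_nonneg_right h2 (hG0 (z i))
    have h4 : (Nat.log 2 (j : ℕ) : ℝ) ≤ Nat.log 2 N := by exact_mod_cast Nat.log_mono_right hj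
    have h5 : (q:ℝ) * C * (Nat.log 2 (j : ℕ) + 1) ≤ E :=
      mul_le_mul_of_nonneg_left (by linarith) hqC
    have h6 : Real.posLog ‖(P j).eval (z i)‖ ≤ N * G (z i) + E := by linarith
    rw [Real.posLog_eq_log_max_one (norm_nonneg _)] at h6
    have h7 : (0:ℝ) < max 1 ‖(P j).eval (z i)‖ := lt_of_lt_of_le one_pos (le_max_left _ _)
    rw [Real.log_le_iff_le_exp h7] at h6
    exact (le_max_right _ _).trans h6
  have hdet : ‖(Matrix.vandermonde z).det‖ ≤ (N.factorial : ℝ) * ∏ i, R i := by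
    rw [Matrix.det_eval_matrixOfPolynomials_eq_det_vandermonde z (fun i => P i)
      (fun i => hPd i) (fun i => hPm i), Matrix.det_apply]
    refine (norm_sum_le _ _).trans ?_
    have h1 : ∀ σ : Equiv.Perm (Fin N), ‖Equiv.Perm.sign σ • ∏ i,
        (Matrix.of fun i j : Fin N => (P j).eval (z i)) (σ i) i‖ ≤ ∏ i, R i := by
      intro σ
      have h2 : ‖Equiv.Perm.sign σ • ∏ i, (Matrix.of fun i j : Fin N => (P j).eval (z i)) (σ i) i‖ =
          ∏ i : Fin N, ‖(P i).eval (z (σ i))‖ := by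
        rcases Int.units_eq_one_or (Equiv.Perm.sign σ) with h | h
        · rw [h, one_smul, norm_prod]; rfl
        · rw [h, Units.neg_smul, one_smul, norm_neg, norm_prod]; rfl
      rw [h2]
      calc ∏ i : Fin N, ‖(P i).eval (z (σ i))‖ ≤ ∏ i, R (σ i) :=
            Finset.prod_le_prod (fun _ _ => norm_nonneg _) fun i _ => hentry (σ i) i
        _ = ∏ i, R i := Equiv.prod_comp σ R
    refine (Finset.sum_le_card_nsmul _ _ _ fun σ _ => h1 σ).trans (le_of_eq ?_)
    rw [Finset.card_univ, Fintype.card_perm, Fintype.card_fin, nsmul_eq_mul]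
  have hdet0 : (Matrix.vandermonde z).det ≠ 0 := Matrix.det_vandermonde_ne_zero_iff.mpr hz
  have hlog : Real.log ‖(Matrix.vandermonde z).det‖ = ∑ i, ∑ j ∈ Ioi i, Real.log ‖z i - z j‖ := by
    rw [Matrix.det_vandermonde, norm_prod, Real.log_prod]
    · refine Finset.sum_congr rfl fun i _ => ?_
      rw [norm_prod, Real.log_prod]
      · refine Finset.sum_congr rfl fun j _ => ?_
        rw [norm_sub_rev]
      · intro j hj
        rw [Finset.mem_Ioi] at hj
        rw [Ne, norm_eq_zero, sub_eq_zero]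
        intro h
        exact hj.ne' (hz h)
    · intro i _
      rw [norm_prod, Finset.prod_ne_zero_iff]
      intro j hj
      rw [Finset.mem_Ioi] at hj
      rw [Ne, norm_eq_zero, sub_eq_zero]
      intro h
      exact hj.ne' (hz h)
  rw [sum_symm (fun i j => Real.log ‖z i - z j‖) (fun i j => by rw [norm_sub_rev])
    (fun i => by rw [sub_self, norm_zero, Real.log_zero]), ← hlog]
  have hfac : (0:ℝ) < N.factorial := by exact_mod_cast N.factorial_pos
  have hprod : 0 < ∏ i, R i := Finset.prod_pos fun i _ => Real.exp_pos _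
  have h1 := Real.log_le_log (norm_pos_iff.mpr hdet0) hdet
  rw [Real.log_mul hfac.ne' hprod.ne', Real.log_prod (fun i _ => (Real.exp_pos _).ne')] at h1
  have h2 : Real.log (N.factorial : ℝ) ≤ N * Real.log N := by
    have h3 : (N.factorial : ℝ) ≤ (N:ℝ) ^ N := by exact_mod_cast Nat.factorial_le_pow N
    have h4 := Real.log_le_log hfac h3
    rwa [Real.log_pow] at h4
  have h5 : ∑ i, Real.log (R i) = N * ∑ i, G (z i) + N * E := by
    rw [hR]
    simp only [Real.log_exp]
    rw [Finset.sum_add_distrib, ← Finset.mul_sum, Finset.sum_const, Finset.card_univ,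
      Fintype.card_fin, nsmul_eq_mul]
  rw [h5] at h1
  have h6 : (N:ℝ) * (Real.log N + E) = N * Real.log N + N * E := by ring
  rw [h6]
  linarith

/-- the energy bound for a family indexed by a finite type -/
theorem energy_fintype (f : ℤ[X]) (hf : f.Monic) (hq : 2 ≤ f.natDegree) {G : ℂ → ℝ} {C : ℝ}
    (hC : 0 ≤ C) (hG0 : ∀ z, 0 ≤ G z) (hG1 : ∀ z : ℂ, Real.posLog ‖z‖ ≤ G z + C)
    (hG2 : ∀ z : ℂ, G (aeval z f) = f.natDegree * G z) {ι : Type*} [Fintype ι] [Nonempty ι]
    (z : ι → ℂ) (hz : Function.Injective z) :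
    ∑ i, ∑ j, Real.log ‖z i - z j‖ ≤
      2 * (Fintype.card ι * ∑ i, G (z i) + Fintype.card ι *
        (Real.log (Fintype.card ι) + f.natDegree * C * (Nat.log 2 (Fintype.card ι) + 1))) := by
  set e := (Fintype.equivFin ι).symm with he
  have h := energy_fin f hf hq hC hG0 hG1 hG2 (fun i => z (e i))
    (hz.comp e.injective)
  have h1 : ∑ i, G (z (e i)) = ∑ i, G (z i) := Equiv.sum_comp e (fun i => G (z i))
  have h2 : ∑ i, ∑ j, Real.log ‖z (e i) - z (e j)‖ = ∑ i, ∑ j, Real.log ‖z i - z j‖ := by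
    rw [← Equiv.sum_comp e (fun i => ∑ j, Real.log ‖z i - z j‖)]
    refine Finset.sum_congr rfl fun i _ => ?_
    exact Equiv.sum_comp e (fun j => Real.log ‖z (e i) - z j‖)
  rw [h1, h2] at h
  exact h

end Pool.Agent.W666.DY
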