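import Mathlib
import Pool.Agent.W666.DY.Chain
import Pool.Agent.W666.DY.Energy

/-!
# The energy inequality along an orbit
-/

set_option autoImplicit false

open Finset Polynomial Module IntermediateField

namespace Pool.Agent.W666.DY

open Pool.Agent.H388SL Pool.Agent.W666.DL Pool.Agent.W666.DM Pool.Agent.W666.DN

variable {K : Type*} [Field K] [NumberField K]

lemma G_iter {f : ℤ[X]} {G : ℂ → ℝ} (hG2 : ∀ z : ℂ, G (aeval z f) = f.natDegree * G z) (n : ℕ)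
    (z : ℂ) : G ((ph f)^[n] z) = (f.natDegree : ℝ) ^ n * G z := by
  induction n with
  | zero => simp
  | succ n ih =>
    rw [Function.iterate_succ_apply', hG2, ih]
    ring

lemma self_nonneg {β : K} (hβ : IsIntegral ℤ β) : 0 ≤ II β β := by
  have h1 : II β β = rr β * NL (aeval β (derivative (minpoly ℤ β))) := self_energy hβ
  rw [h1]
  exact mul_nonneg (Nat.cast_nonneg _) (NL_nonneg (isIntegral_aevalZ hβ _) (deriv_ne_zero hβ))

lemma energy_low {p k : ℕ} (hp : p.Prime) (hk : 0 < k) {f : ℤ[X]} (hf : Fr p k f) {β : K}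
    (hβ : IsIntegral ℤ β) (hw : Function.Injective fun n : ℕ => (ph f)^[n] β) (n : ℕ)
    (hc : ∀ i < n, CInj ((ph f)^[i] β)) :
    (finrank ℚ K * Real.log p) * (((n : ℝ) ^ 3 - n) / 3) ≤
      ∑ i ∈ range n, ∑ j ∈ range n, II ((ph f)^[i] β) ((ph f)^[j] β) := by
  induction n with
  | zero => simp
  | succ n ih =>
    have ih' := ih fun i hi => hc i (by omega)
    set A : ℝ := finrank ℚ K * Real.log p with hA
    have hA0 : 0 ≤ A := mul_nonneg (Nat.cast_nonneg _) (Real.log_natCast_nonneg p)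
    have h1 : ∑ i ∈ range n, ((i : ℝ) + 1) * A ≤
        ∑ i ∈ range n, II ((ph f)^[n] β) ((ph f)^[i] β) := by
      refine Finset.sum_le_sum fun i hi => ?_
      rw [Finset.mem_range] at hi
      exact cross_dyn hp hk hf hβ hw hi (hc i (by omega))
    have h2 : ∑ i ∈ range n, ((i : ℝ) + 1) * A = A * (n * (n + 1) / 2) := by
      rw [← Finset.sum_mul]
      have h3 : ∀ m : ℕ, ∑ i ∈ range m, ((i : ℝ) + 1) = m * (m + 1) / 2 := by
        intro m
        induction m with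
        | zero => simp
        | succ m ihm => rw [Finset.sum_range_succ, ihm]; push_cast; ring
      rw [h3]; ring
    have h4 : ∑ i ∈ range n, II ((ph f)^[i] β) ((ph f)^[n] β) =
        ∑ i ∈ range n, II ((ph f)^[n] β) ((ph f)^[i] β) :=
      Finset.sum_congr rfl fun i _ => II_comm _ _
    have h5 := self_nonneg (integral_ph hβ f n)
    have h6 : ∑ i ∈ range (n + 1), ∑ j ∈ range (n + 1), II ((ph f)^[i] β) ((ph f)^[j] β) =
        ∑ i ∈ range n, ∑ j ∈ range n, II ((ph f)^[i] β) ((ph f)^[j] β) +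
          ∑ i ∈ range n, II ((ph f)^[i] β) ((ph f)^[n] β) +
          (∑ i ∈ range n, II ((ph f)^[n] β) ((ph f)^[i] β) + II ((ph f)^[n] β) ((ph f)^[n] β)) := by
      rw [Finset.sum_range_succ, Finset.sum_range_succ (fun j => II ((ph f)^[n] β) ((ph f)^[j] β))]
      rw [← Finset.sum_add_distrib]
      congr 1
      refine Finset.sum_congr rfl fun i _ => ?_
      rw [Finset.sum_range_succ]
    rw [h6, h4]
    push_cast
    rw [h2] at h1
    nlinarith

theorem dyn_ineq {p k : ℕ} (hp : p.Prime) (hk : 0 < k) {f : ℤ[X]} (hfm : f.Monic)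
    (hf : Fr p k f) (hq : 2 ≤ f.natDegree) {G : ℂ → ℝ} {C : ℝ}
    (hC : 0 ≤ C) (hG0 : ∀ z, 0 ≤ G z) (hG1 : ∀ z : ℂ, Real.posLog ‖z‖ ≤ G z + C)
    (hG2 : ∀ z : ℂ, G (aeval z f) = f.natDegree * G z) {β : K}
    (hβ : IsIntegral ℤ β) (hw : Function.Injective fun n : ℕ => (ph f)^[n] β) {n : ℕ} (hn : 0 < n)
    (hc : ∀ i < n, CInj ((ph f)^[i] β)) :
    Real.log p * (((n : ℝ) ^ 2 - 1) / 3) ≤
      2 * ((f.natDegree : ℝ) ^ n * ∑ σ : K →ₐ[ℚ] ℂ, G (σ β)) +
        2 * (Real.log ((n * finrank ℚ K : ℕ) : ℝ) +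
          f.natDegree * C * (Nat.log 2 (n * finrank ℚ K) + 1)) := by
  classical
  set q := f.natDegree with hqdef
  set d := finrank ℚ K with hd
  have hd0 : 0 < d := finrank_pos
  have hcard : Fintype.card (K →ₐ[ℚ] ℂ) = d := AlgHom.card ℚ K ℂ
  have : NeZero n := ⟨hn.ne'⟩
  obtain ⟨σ0⟩ : Nonempty (K →ₐ[ℚ] ℂ) := ⟨IsAlgClosed.lift⟩
  have : Nonempty (Fin n × (K →ₐ[ℚ] ℂ)) := ⟨(⟨0, hn⟩, σ0)⟩
  set z : Fin n × (K →ₐ[ℚ] ℂ) → ℂ := fun x => x.2 ((ph f)^[x.1] β) with hz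
  have hzinj : Function.Injective z := by
    rintro ⟨i, σ⟩ ⟨j, τ⟩ h
    have h' : σ ((ph f)^[i] β) = τ ((ph f)^[j] β) := h
    rcases lt_trichotomy (i : ℕ) (j : ℕ) with hij | hij | hij
    · exact absurd h'.symm (conj_ne_dyn f hw hij τ σ)
    · have hij' : i = j := Fin.ext hij
      subst hij'
      have : σ = τ := hc i i.2 h'
      rw [this]
    · exact absurd h' (conj_ne_dyn f hw hij σ τ)
  have hE := energy_fintype f hfm hq hC hG0 hG1 hG2 z hzinj
  rw [Fintype.card_prod, Fintype.card_fin, hcard] at hE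
  have hL : ∑ x, ∑ y, Real.log ‖z x - z y‖ =
      ∑ i ∈ range n, ∑ j ∈ range n, II ((ph f)^[i] β) ((ph f)^[j] β) := by
    rw [Fintype.sum_prod_type, ← Fin.sum_univ_eq_sum_range
      (fun i => ∑ j ∈ range n, II ((ph f)^[i] β) ((ph f)^[j] β)) n]
    refine Finset.sum_congr rfl fun i _ => ?_
    rw [← Fin.sum_univ_eq_sum_range (fun j => II ((ph f)^[(i : ℕ)] β) ((ph f)^[j] β)) n]
    simp only [Fintype.sum_prod_type, II]
    rw [Finset.sum_comm]
  have hG : ∑ x, G (z x) ≤ (q : ℝ) ^ n * ∑ σ : K →ₐ[ℚ] ℂ, G (σ β) := by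
    rw [Fintype.sum_prod_type]
    have h1 : ∀ i : Fin n, ∑ σ : K →ₐ[ℚ] ℂ, G (z (i, σ)) =
        (q : ℝ) ^ (i : ℕ) * ∑ σ : K →ₐ[ℚ] ℂ, G (σ β) := by
      intro i
      rw [Finset.mul_sum]
      refine Finset.sum_congr rfl fun σ _ => ?_
      rw [← G_iter hG2 i (σ β)]
      exact congrArg G (ph_hom (σ : K →+* ℂ) f i β)
    rw [Finset.sum_congr rfl fun i _ => h1 i, ← Finset.sum_mul,
      Fin.sum_univ_eq_sum_range (fun i => (q:ℝ) ^ i) n]
    have h2 : ∀ m : ℕ, ∑ i ∈ range m, (q:ℝ) ^ i ≤ (q:ℝ) ^ m := by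
      have hq2 : (2:ℝ) ≤ q := by exact_mod_cast hq
      intro m
      induction m with
      | zero => simp
      | succ m ih =>
        rw [Finset.sum_range_succ, pow_succ]
        have : 0 < (q:ℝ) ^ m := by positivity
        nlinarith
    exact mul_le_mul_of_nonneg_right (h2 n) (Finset.sum_nonneg fun σ _ => hG0 _)
  have hlow := energy_low hp hk hf hβ hw n hc
  rw [hL] at hE
  have hN : (0:ℝ) < ((n * d : ℕ) : ℝ) := by exact_mod_cast Nat.mul_pos hn hd0
  have hNr : ((n * d : ℕ) : ℝ) = n * d := by push_cast; ring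
  have h3 := hlow.trans hE
  have h4 := mul_le_mul_of_nonneg_left hG hN.le
  have h5 : ((n * d : ℕ) : ℝ) * (Real.log p * (((n : ℝ) ^ 2 - 1) / 3)) ≤ ((n * d : ℕ) : ℝ) *
      (2 * ((q : ℝ) ^ n * ∑ σ : K →ₐ[ℚ] ℂ, G (σ β)) +
        2 * (Real.log ((n * d : ℕ) : ℝ) + q * C * (Nat.log 2 (n * d) + 1))) := by
    have e1 : ((n * d : ℕ) : ℝ) * (Real.log p * (((n : ℝ) ^ 2 - 1) / 3)) =
        (d * Real.log p) * (((n : ℝ) ^ 3 - n) / 3) := by rw [hNr]; ring
    rw [e1]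
    linarith
  exact le_of_mul_le_mul_left h5 hN

end Pool.Agent.W666.DY
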