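import Mathlib
import Pool.Agent.W666.DY.Ineq

/-!
# The lower bound for algebraic integers
-/

set_option autoImplicit false

open Finset Polynomial Module IntermediateField

namespace Pool.Agent.W666.DY

open Pool.Agent.H388SL Pool.Agent.W666.DL Pool.Agent.W666.DM Pool.Agent.W666.DN

lemma window (R : ℕ → ℕ) (n r : ℕ) (hS : {j | R (j + 1) ≠ R j}.encard ≤ r) :
    ∃ s ≤ r, ∀ i ≤ n, R (s * n + i) = R (s * n) := by
  by_contra hcon
  push Not at hcon
  have h1 : ∀ s : ℕ, ∃ j, s ≤ r → (s * n ≤ j ∧ j < (s + 1) * n ∧ R (j + 1) ≠ R j) := by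
    intro s
    by_cases hs : s ≤ r
    · obtain ⟨i, hi, hne⟩ := hcon s hs
      by_contra hno
      push Not at hno
      apply hne
      have h2 : ∀ t ≤ n, R (s * n + t) = R (s * n) := by
        intro t
        induction t with
        | zero => intro _; rfl
        | succ t ih =>
          intro ht
          have h3 := (hno (s * n + t)).2 (Nat.le_add_right _ _) (by rw [Nat.succ_mul]; omega)
          rw [← ih (by omega)]
          exact h3
      exact h2 i hi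
    · exact ⟨0, fun h => absurd h hs⟩
  choose j hj using h1
  have hinj : Set.InjOn j (range (r + 1) : Finset ℕ) := by
    intro s hs t ht hst
    rw [Finset.mem_coe, Finset.mem_range] at hs ht
    obtain ⟨a1, a2, _⟩ := hj s (by omega)
    obtain ⟨b1, b2, _⟩ := hj t (by omega)
    rw [hst] at a1 a2
    by_contra hne
    rcases Nat.lt_or_gt_of_ne hne with h | h
    · have : (s + 1) * n ≤ t * n := Nat.mul_le_mul_right n h
      omega
    · have : (t + 1) * n ≤ s * n := Nat.mul_le_mul_right n h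
      omega
  have hsub : ((range (r + 1)).image j : Set ℕ) ⊆ {j | R (j + 1) ≠ R j} := by
    intro x hx
    rw [Finset.mem_coe, Finset.mem_image] at hx
    obtain ⟨s, hs, rfl⟩ := hx
    rw [Finset.mem_range] at hs
    exact (hj s (by omega)).2.2
  have h2 := (Set.encard_le_encard hsub).trans hS
  rw [Set.encard_coe_eq_coe_finsetCard, Finset.card_image_of_injOn hinj, Finset.card_range] at h2
  have h3 : r + 1 ≤ r := by exact_mod_cast h2
  omega

lemma numeric {K1 κ A y : ℝ} (hK : 0 ≤ K1) (hκ : κ = 2 + 4 * K1) (hA : A = 5 * κ + 3)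
    {D d n p : ℕ} (hd : 0 < d) (hdD : d ≤ D) (hy0 : 0 ≤ y) (hy : y ^ 2 = 1 + Real.log D)
    (hn1 : A * y ≤ n) (hn2 : (n:ℝ) ≤ A * y + 1) (hp : 2 ≤ p) :
    2 * (Real.log ((n * d : ℕ) : ℝ) + K1 * (Nat.log 2 (n * d) + 1)) + 1 ≤
      Real.log p * (((n : ℝ) ^ 2 - 1) / 3) := by
  have hD1 : (1:ℝ) ≤ D := by exact_mod_cast (by omega : 1 ≤ D)
  have hlD : 0 ≤ Real.log D := Real.log_nonneg hD1
  have hy1 : 1 ≤ y := by nlinarith
  have hκ2 : 2 ≤ κ := by linarith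
  have hA1 : 13 ≤ A := by linarith
  have hAy : 13 ≤ A * y := by nlinarith
  have hnr : (13:ℝ) ≤ n := by linarith
  have hn0 : (0:ℝ) < n := by linarith
  have hd0 : (0:ℝ) < d := by exact_mod_cast hd
  have hNr : ((n * d : ℕ) : ℝ) = n * d := by push_cast; ring
  have hlogN : Real.log ((n * d : ℕ) : ℝ) = Real.log n + Real.log d := by
    rw [hNr, Real.log_mul hn0.ne' hd0.ne']
  have h1 : Real.log n ≤ A + (y - 1) := by
    have h2 : (n:ℝ) ≤ (A + 1) * y := by nlinarith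
    have h3 := Real.log_le_log hn0 h2
    rw [Real.log_mul (by linarith) (by linarith)] at h3
    have h4 := Real.log_le_sub_one_of_pos (show 0 < A + 1 by linarith)
    have h5 := Real.log_le_sub_one_of_pos (show 0 < y by linarith)
    linarith
  have h2 : Real.log d ≤ y ^ 2 - 1 := by
    have h3 : (d:ℝ) ≤ D := by exact_mod_cast hdD
    have h4 := Real.log_le_log hd0 h3
    linarith
  have hyy : y ≤ y ^ 2 := by nlinarith
  have hyy1 : 1 ≤ y ^ 2 := by nlinarith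
  have hAyy : A ≤ A * y ^ 2 := by nlinarith
  have h3 : Real.log ((n * d : ℕ) : ℝ) + 1 ≤ (A + 2) * y ^ 2 := by
    rw [hlogN]; nlinarith
  have hN0 : n * d ≠ 0 := by
    have : 0 < n := by exact_mod_cast hn0
    exact (Nat.mul_pos this hd).ne'
  have h4 : (Nat.log 2 (n * d) : ℝ) ≤ 2 * Real.log ((n * d : ℕ) : ℝ) := by
    have h5 : 2 ^ (Nat.log 2 (n * d)) ≤ n * d := Nat.pow_log_le_self 2 hN0
    have h6 : ((2:ℝ)) ^ (Nat.log 2 (n * d)) ≤ ((n * d : ℕ) : ℝ) := by exact_mod_cast h5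
    have h7 := Real.log_le_log (by positivity) h6
    rw [Real.log_pow] at h7
    have h8 := Real.log_two_gt_d9
    have h9 : (0:ℝ) ≤ Nat.log 2 (n * d) := Nat.cast_nonneg _
    nlinarith
  have h5 : 2 * (Real.log ((n * d : ℕ) : ℝ) + K1 * (Nat.log 2 (n * d) + 1)) + 1 ≤
      κ * (Real.log ((n * d : ℕ) : ℝ) + 1) := by
    have h6 := mul_le_mul_of_nonneg_left h4 hK
    rw [hκ]
    nlinarith
  have h6 : κ * (Real.log ((n * d : ℕ) : ℝ) + 1) ≤ κ * ((A + 2) * y ^ 2) :=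
    mul_le_mul_of_nonneg_left h3 (by linarith)
  have h7 : Real.log 2 ≤ Real.log p := Real.log_le_log (by norm_num) (by exact_mod_cast hp)
  have h8 := Real.log_two_gt_d9
  have h9 : (A * y) ^ 2 ≤ (n:ℝ) ^ 2 := pow_le_pow_left₀ (by linarith) hn1 2
  have h10 : (A ^ 2 - 1) * y ^ 2 ≤ (n:ℝ) ^ 2 - 1 := by nlinarith
  have h11 : 0 ≤ (n:ℝ) ^ 2 - 1 := by nlinarith
  have h12 : (1 / 5 : ℝ) * ((A ^ 2 - 1) * y ^ 2) ≤ Real.log p * (((n : ℝ) ^ 2 - 1) / 3) := by
    have h13 : (0.6:ℝ) * (((n : ℝ) ^ 2 - 1) / 3) ≤ Real.log p * (((n : ℝ) ^ 2 - 1) / 3) :=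
      mul_le_mul_of_nonneg_right (by linarith) (by linarith)
    linarith
  have h14 : κ * ((A + 2) * y ^ 2) ≤ (1 / 5 : ℝ) * ((A ^ 2 - 1) * y ^ 2) := by
    have h15 : κ * (A + 2) ≤ (1 / 5 : ℝ) * (A ^ 2 - 1) := by rw [hA]; nlinarith
    have := mul_le_mul_of_nonneg_right h15 (by linarith : 0 ≤ y ^ 2)
    linarith
  linarith

variable {K : Type*} [Field K] [NumberField K]

lemma CInj_of_rr {β : K} (h : rr β = 1) : CInj β := by
  classical
  intro σ τ hστ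
  by_contra hne
  have h1 := count_eq β σ
  rw [h, Nat.cast_one] at h1
  have hστ' : σ β = τ β := hστ
  have h2 : ∑ ρ ∈ ({σ, τ} : Finset (K →ₐ[ℚ] ℂ)), (if σ β = ρ β then (1:ℝ) else 0) ≤
      ∑ ρ : K →ₐ[ℚ] ℂ, (if σ β = ρ β then (1:ℝ) else 0) := by
    apply Finset.sum_le_sum_of_subset_of_nonneg (Finset.subset_univ _)
    intro _ _ _
    split_ifs <;> norm_num
  rw [Finset.sum_pair hne, if_pos rfl, if_pos hστ', h1] at h2
  norm_num at h2

/-- the generator of `ℚ(γ)` has a nondegenerate orbit as long as the degrees do not drop -/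
lemma CInj_gen_iter (f : ℤ[X]) {γ : K} {i : ℕ} (h : rr ((ph f)^[i] γ) = rr γ) :
    CInj ((ph f)^[i] (AdjoinSimple.gen ℚ γ)) := by
  apply CInj_of_rr
  set e := AdjoinSimple.gen ℚ γ with he
  have h1 : algebraMap ℚ⟮γ⟯ K ((ph f)^[i] e) = (ph f)^[i] γ := by
    have := ph_hom (algebraMap ℚ⟮γ⟯ K) f i e
    rw [gen_map] at this
    exact this
  have h2 : minpoly ℚ ((ph f)^[i] e) = minpoly ℚ ((ph f)^[i] γ) := by
    rw [← h1]
    exact (minpoly.algebraMap_eq (algebraMap ℚ⟮γ⟯ K).injective _).symm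
  have h3 := rr_mul_natDegree ((ph f)^[i] e)
  have h4 := rr_mul_natDegree ((ph f)^[i] γ)
  have h5 : finrank ℚ ℚ⟮γ⟯ * rr γ = finrank ℚ K := finrank_mul_finrank ℚ ℚ⟮γ⟯ K
  rw [h2] at h3
  rw [h] at h4
  have h6 : 0 < (minpoly ℚ ((ph f)^[i] γ)).natDegree :=
    minpoly.natDegree_pos (Algebra.IsIntegral.isIntegral _)
  have h7 : (minpoly ℚ ((ph f)^[i] γ)).natDegree = finrank ℚ ℚ⟮γ⟯ := by
    apply Nat.eq_of_mul_eq_mul_left (rr_pos γ)
    rw [h4, ← h5, mul_comm]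
  rw [h7] at h3
  have h8 : 0 < finrank ℚ ℚ⟮γ⟯ := finrank_pos
  exact Nat.eq_of_mul_eq_mul_right h8 (h3.trans (one_mul _).symm)

/-- the lower bound for algebraic integers -/
theorem core {p k : ℕ} (hp : p.Prime) (hk : 0 < k) {f : ℤ[X]} (hfm : f.Monic)
    (hf : Fr p k f) (hq : 2 ≤ f.natDegree) {G : ℂ → ℝ} {C : ℝ}
    (hC : 0 ≤ C) (hG0 : ∀ z, 0 ≤ G z) (hG1 : ∀ z : ℂ, Real.posLog ‖z‖ ≤ G z + C)
    (hG2 : ∀ z : ℂ, G (aeval z f) = f.natDegree * G z) :
    ∃ C' : ℝ, 1 ≤ C' ∧ ∀ (K : Type) [Field K] [NumberField K] (α : K), IsIntegral ℤ α →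
      (Function.Injective fun n : ℕ => (ph f)^[n] α) →
      ∀ r : ℕ, {j | rr ((ph f)^[j + 1] α) ≠ rr ((ph f)^[j] α)}.encard ≤ r →
      Real.exp (-(C' * (r + 1) * Real.sqrt (1 + Real.log (finrank ℚ K)))) ≤
        ∑ σ : K →ₐ[ℚ] ℂ, G (σ α) := by
  set q := f.natDegree with hqdef
  have hq2 : (2:ℝ) ≤ q := by exact_mod_cast hq
  set K1 : ℝ := q * C with hK1
  have hK10 : 0 ≤ K1 := by positivity
  set κ : ℝ := 2 + 4 * K1 with hκ
  set A : ℝ := 5 * κ + 3 with hA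
  have hA13 : 13 ≤ A := by linarith
  have hlq : 1 / 2 ≤ Real.log q := by
    have h1 := Real.log_le_log (by norm_num) hq2
    have h2 := Real.log_two_gt_d9
    linarith
  refine ⟨(A + 2) * Real.log q, by nlinarith, ?_⟩
  intro K _ _ α hα hw r hr
  set D := finrank ℚ K with hD
  have hD0 : 0 < D := finrank_pos
  have hlD : 0 ≤ Real.log D := Real.log_natCast_nonneg D
  set y := Real.sqrt (1 + Real.log D) with hy
  have hy2 : y ^ 2 = 1 + Real.log D := Real.sq_sqrt (by linarith)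
  have hy0 : 0 ≤ y := Real.sqrt_nonneg _
  have hy1 : 1 ≤ y := by nlinarith
  set n : ℕ := ⌈A * y⌉₊ with hn
  have hn1 : A * y ≤ n := Nat.le_ceil _
  have hn2 : (n:ℝ) ≤ A * y + 1 := (Nat.ceil_lt_add_one (by positivity)).le
  have hAy : 13 ≤ A * y := by nlinarith
  have hn0 : 0 < n := by
    have : (0:ℝ) < n := by linarith
    exact_mod_cast this
  obtain ⟨s, hsr, hs⟩ := window (fun j => rr ((ph f)^[j] α)) n r hr
  set j := s * n with hj
  set γ := (ph f)^[j] α with hγ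
  have hγi : IsIntegral ℤ γ := integral_ph hα f j
  have hadd : ∀ i, (ph f)^[i] γ = (ph f)^[j + i] α := by
    intro i
    rw [hγ, ← Function.iterate_add_apply, add_comm]
  have hrr : ∀ i ≤ n, rr ((ph f)^[i] γ) = rr γ := by
    intro i hi
    rw [hadd]
    exact hs i hi
  set e := AdjoinSimple.gen ℚ γ with he
  have hei : IsIntegral ℤ e := gen_int hγi
  have hew : Function.Injective fun n : ℕ => (ph f)^[n] e := by
    intro a b hab
    have h1 : algebraMap ℚ⟮γ⟯ K ((ph f)^[a] e) = algebraMap ℚ⟮γ⟯ K ((ph f)^[b] e) :=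
      congrArg _ hab
    rw [ph_hom, ph_hom, gen_map, hadd, hadd] at h1
    have h2 := hw h1
    exact Nat.add_left_cancel h2
  set d := finrank ℚ ℚ⟮γ⟯ with hd
  have hd0 : 0 < d := finrank_pos
  have hdD : d ≤ D := by
    have h1 : d * rr γ = D := finrank_mul_finrank ℚ ℚ⟮γ⟯ K
    rw [← h1]
    exact Nat.le_mul_of_pos_right _ (rr_pos γ)
  have h1 := dyn_ineq hp hk hfm hf hq hC hG0 hG1 hG2 hei hew hn0
    (fun i hi => CInj_gen_iter f (hrr i hi.le))
  have h2 := numeric (p := p) hK10 hκ hA hd0 hdD hy0 hy2 hn1 hn2 hp.two_le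
  set H := ∑ σ : ℚ⟮γ⟯ →ₐ[ℚ] ℂ, G (σ e) with hH
  have h3 : 1 ≤ 2 * ((q:ℝ) ^ n * H) := by
    have h4 : (q:ℝ) * C * (Nat.log 2 (n * d) + 1) = K1 * (Nat.log 2 (n * d) + 1) := rfl
    linarith
  have hH0 : 0 ≤ H := Finset.sum_nonneg fun σ _ => hG0 _
  -- back to `α`
  have h4 : ∑ σ : K →ₐ[ℚ] ℂ, G (σ γ) = (q:ℝ) ^ j * ∑ σ : K →ₐ[ℚ] ℂ, G (σ α) := by
    rw [Finset.mul_sum]
    refine Finset.sum_congr rfl fun σ _ => ?_
    rw [← G_iter hG2 j (σ α)]
    exact congrArg G (ph_hom (σ : K →+* ℂ) f j α)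
  have h5 : ∑ σ : K →ₐ[ℚ] ℂ, G (σ γ) = rr γ * H := by
    rw [sum_embeddings' γ G, nsmul_eq_mul]
    rfl
  have h6 : H ≤ rr γ * H := by
    have : (1:ℝ) ≤ rr γ := by exact_mod_cast rr_pos γ
    nlinarith
  have h7 : H ≤ (q:ℝ) ^ j * ∑ σ : K →ₐ[ℚ] ℂ, G (σ α) := by rw [← h4, h5]; exact h6
  set W := ∑ σ : K →ₐ[ℚ] ℂ, G (σ α) with hW
  have hW0 : 0 ≤ W := Finset.sum_nonneg fun σ _ => hG0 _
  have h8 : 1 ≤ (q:ℝ) ^ ((r + 1) * (n + 1)) * W := by
    have h9 : 1 ≤ (q:ℝ) ^ (n + 1 + j) * W := by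
      have h10 : (q:ℝ) ^ n * H ≤ (q:ℝ) ^ n * ((q:ℝ) ^ j * W) :=
        mul_le_mul_of_nonneg_left h7 (by positivity)
      have h11 : 2 * ((q:ℝ) ^ n * ((q:ℝ) ^ j * W)) ≤ q * ((q:ℝ) ^ n * ((q:ℝ) ^ j * W)) :=
        mul_le_mul_of_nonneg_right hq2 (by positivity)
      have h12 : (q:ℝ) ^ (n + 1 + j) * W = q * ((q:ℝ) ^ n * ((q:ℝ) ^ j * W)) := by
        rw [pow_add, pow_succ]; ring
      rw [h12]
      linarith
    refine h9.trans (mul_le_mul_of_nonneg_right ?_ hW0)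
    apply pow_le_pow_right₀ (by linarith)
    have h13 : j ≤ r * n := Nat.mul_le_mul_right n hsr
    nlinarith
  have h9 : Real.exp (-(((r + 1) * (n + 1) : ℕ) * Real.log q)) ≤ W := by
    rw [Real.exp_neg, Real.exp_nat_mul, Real.exp_log (by linarith)]
    rw [inv_le_iff_one_le_mul₀ (by positivity)]
    linarith
  refine le_trans (Real.exp_le_exp.mpr ?_) h9
  rw [neg_le_neg_iff]
  push_cast
  have h10 : (n:ℝ) + 1 ≤ (A + 2) * y := by nlinarith
  have h11 : ((r:ℝ) + 1) * (n + 1) ≤ (r + 1) * ((A + 2) * y) :=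
    mul_le_mul_of_nonneg_left h10 (by positivity)
  calc ((r:ℝ) + 1) * (n + 1) * Real.log q ≤ (r + 1) * ((A + 2) * y) * Real.log q :=
        mul_le_mul_of_nonneg_right h11 (by linarith)
    _ = (A + 2) * Real.log q * (r + 1) * y := by ring

end Pool.Agent.W666.DY
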