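import Mathlib
import Pool.Agent.W666.DY.Core

/-!
# Canonical heights of monic integer polynomials
-/

set_option autoImplicit false

open Finset Polynomial Module IntermediateField Filter Topology NumberField

namespace Pool.Agent.W666.DY

open Pool.Agent.H388SL Pool.Agent.W666.DL Pool.Agent.W666.DM Pool.Agent.W666.DN

variable {K : Type*} [Field K] [NumberField K]

lemma FP_eq (v : FinitePlace K) : ∃ w : IsDedekindDomain.HeightOneSpectrum (𝓞 K),
    ∀ x : K, v x = NumberField.HeightOneSpectrum.adicAbv K w x := by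
  obtain ⟨w, hw⟩ := v.prop
  refine ⟨w, fun x => ?_⟩
  rw [FinitePlace.coe_apply, ← hw]
  exact NumberField.FinitePlace.norm_embedding w x

lemma FP_int (v : FinitePlace K) (n : ℤ) : v (n : K) ≤ 1 := by
  obtain ⟨w, hw⟩ := FP_eq v
  rw [hw]
  exact NumberField.HeightOneSpectrum.adicAbv_intCast_le_one K w n

lemma FP_sum_le {ι : Type*} (v : FinitePlace K) (s : Finset ι) (g : ι → K) {M : ℝ} (hM : 0 ≤ M)
    (h : ∀ i ∈ s, v (g i) ≤ M) : v (∑ i ∈ s, g i) ≤ M := by
  classical
  induction s using Finset.induction_on with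
  | empty => simpa using hM
  | insert a s ha ih =>
    rw [Finset.sum_insert ha]
    refine (FinitePlace.add_le v _ _).trans (max_le (h a (Finset.mem_insert_self _ _)) ?_)
    exact ih fun i hi => h i (Finset.mem_insert_of_mem hi)

lemma poly_place (f : ℤ[X]) (hf : f.Monic) (hq : 0 < f.natDegree) (v : FinitePlace K) (x : K) :
    Real.posLog (v (aeval x f)) = f.natDegree * Real.posLog (v x) := by
  set q := f.natDegree with hqdef
  set T : K := ∑ i ∈ range q, ((f.coeff i : ℤ) : K) * x ^ i with hT
  have hFe : aeval x f = x ^ q + T := by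
    rw [Polynomial.aeval_eq_sum_range, Finset.sum_range_succ, ← hqdef]
    have h1 : f.coeff q = 1 := by rw [hqdef]; exact hf
    rw [h1, one_smul, add_comm]
    congr 1
    refine Finset.sum_congr rfl fun i _ => ?_
    rw [zsmul_eq_mul]
  have hv0 : 0 ≤ v x := apply_nonneg v x
  rcases le_or_gt (v x) 1 with hx | hx
  · have h1 : v (aeval x f) ≤ 1 := by
      rw [hFe]
      refine (FinitePlace.add_le v _ _).trans (max_le ?_ ?_)
      · rw [map_pow]; exact pow_le_one₀ hv0 hx
      · refine FP_sum_le v _ _ zero_le_one fun i _ => ?_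
        rw [map_mul, map_pow]
        exact mul_le_one₀ (FP_int v _) (pow_nonneg hv0 _) (pow_le_one₀ hv0 hx)
    have h2 : Real.posLog (v (aeval x f)) = 0 := by
      rw [Real.posLog_eq_zero_iff, abs_of_nonneg (apply_nonneg v _)]; exact h1
    have h3 : Real.posLog (v x) = 0 := by
      rw [Real.posLog_eq_zero_iff, abs_of_nonneg hv0]; exact hx
    rw [h2, h3, mul_zero]
  · have hT1 : v T ≤ (v x) ^ (q - 1) := by
      refine FP_sum_le v _ _ (pow_nonneg hv0 _) fun i hi => ?_
      rw [Finset.mem_range] at hi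
      rw [map_mul, map_pow]
      calc v ((f.coeff i : ℤ) : K) * v x ^ i ≤ 1 * v x ^ i :=
            mul_le_mul_of_nonneg_right (FP_int v _) (pow_nonneg hv0 _)
        _ = v x ^ i := one_mul _
        _ ≤ v x ^ (q - 1) := pow_le_pow_right₀ hx.le (by omega)
    have hT2 : v T < (v x) ^ q := lt_of_le_of_lt hT1 (pow_lt_pow_right₀ hx (by omega))
    have h1 : v (x ^ q + T) ≤ (v x) ^ q := by
      refine (FinitePlace.add_le v _ _).trans (max_le ?_ hT2.le)
      rw [map_pow]
    have h2 : (v x) ^ q ≤ v (x ^ q + T) := by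
      have h3 : (v x) ^ q ≤ max (v (x ^ q + T)) (v (-T)) := by
        rw [← map_pow]
        have : x ^ q = (x ^ q + T) + (-T) := by ring
        conv_lhs => rw [this]
        exact FinitePlace.add_le v _ _
      rw [map_neg_eq_map] at h3
      rcases le_max_iff.mp h3 with h | h
      · exact h
      · exact absurd h (not_le.mpr hT2)
    rw [hFe, le_antisymm h1 h2, Real.posLog_pow]

/-- the archimedean part of the height -/
lemma arch_eq (x : K) : ∑ v : InfinitePlace K, (v.mult : ℝ) * Real.posLog (v x) =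
    ∑ σ : K →ₐ[ℚ] ℂ, Real.posLog ‖σ x‖ := by
  classical
  have h1 : ∑ φ : K →+* ℂ, Real.posLog ‖φ x‖ =
      ∑ v : InfinitePlace K, (v.mult : ℝ) * Real.posLog (v x) := by
    rw [← Finset.sum_fiberwise Finset.univ InfinitePlace.mk (fun φ : K →+* ℂ => Real.posLog ‖φ x‖)]
    refine Finset.sum_congr rfl fun v _ => ?_
    have h2 : ∀ φ ∈ Finset.univ.filter (fun φ : K →+* ℂ => InfinitePlace.mk φ = v),
        Real.posLog ‖φ x‖ = Real.posLog (v x) := by
      intro φ hφ
      rw [Finset.mem_filter] at hφ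
      rw [← hφ.2]
      rfl
    rw [Finset.sum_congr rfl h2, Finset.sum_const, InfinitePlace.card_filter_mk_eq, nsmul_eq_mul]
  rw [← h1]
  refine Fintype.sum_equiv (RingHom.equivRatAlgHom (R := K) (S := ℂ)) _ _ fun φ => ?_
  rfl

/-- the finite part of the height -/
noncomputable def HF (x : K) : ℝ := ∑ᶠ v : FinitePlace K, Real.posLog (v x)

lemma HF_nonneg (x : K) : 0 ≤ HF x := finsum_nonneg fun _ => Real.posLog_nonneg

lemma HF_ph (f : ℤ[X]) (hf : f.Monic) (hq : 0 < f.natDegree) (x : K) (n : ℕ) :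
    HF ((ph f)^[n] x) = (f.natDegree : ℝ) ^ n * HF x := by
  induction n with
  | zero => simp
  | succ n ih =>
    rw [Function.iterate_succ_apply']
    have h1 : HF (ph f ((ph f)^[n] x)) = f.natDegree * HF ((ph f)^[n] x) := by
      unfold HF
      rw [← smul_eq_mul, smul_finsum]
      refine finsum_congr fun v => ?_
      rw [smul_eq_mul]
      exact poly_place f hf hq v _
    rw [h1, ih]; ring

lemma two_le_place {x : K} (hx : ¬ IsIntegral ℤ x) : ∃ v : FinitePlace K, 2 ≤ v x := by
  have h1 : ∃ w : IsDedekindDomain.HeightOneSpectrum (𝓞 K), 1 < w.valuation K x := by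
    by_contra hcon
    push Not at hcon
    obtain ⟨y, hy⟩ :=
      IsDedekindDomain.HeightOneSpectrum.mem_integers_of_valuation_le_one K x hcon
    exact hx (hy ▸ RingOfIntegers.isIntegral_coe y)
  obtain ⟨w, hw⟩ := h1
  refine ⟨FinitePlace.mk w, ?_⟩
  rw [FinitePlace.mk_apply, NumberField.FinitePlace.norm_embedding,
    NumberField.HeightOneSpectrum.adicAbv_def]
  have hx0 : w.valuation K x ≠ 0 := (lt_trans zero_lt_one hw).ne'
  set m : ℤ := Multiplicative.toAdd (WithZero.unzero hx0) with hm
  have hval : WithZeroMulInt.toNNReal (NumberField.HeightOneSpectrum.absNorm_ne_zero w)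
      (w.valuation K x) = (Ideal.absNorm w.asIdeal : NNReal) ^ m := by
    rw [WithZeroMulInt.toNNReal_neg_apply _ hx0]
  have hm1 : 1 ≤ m := by
    have h2 : (1 : WithZero (Multiplicative ℤ)) < ((WithZero.unzero hx0 : Multiplicative ℤ) :
        WithZero (Multiplicative ℤ)) := by
      rw [WithZero.coe_unzero]; exact hw
    rw [← WithZero.coe_one, WithZero.coe_lt_coe] at h2
    have h3 : (0:ℤ) < m := h2
    omega
  have hN : 2 ≤ Ideal.absNorm w.asIdeal := NumberField.HeightOneSpectrum.one_lt_absNorm w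
  rw [hval]
  have hNr : (2:ℝ) ≤ (Ideal.absNorm w.asIdeal : ℝ) := by exact_mod_cast hN
  push_cast
  calc (2:ℝ) ≤ (Ideal.absNorm w.asIdeal : ℝ) ^ (1:ℤ) := by rw [zpow_one]; exact hNr
    _ ≤ (Ideal.absNorm w.asIdeal : ℝ) ^ m := zpow_le_zpow_right₀ (by linarith) hm1

lemma HF_nonint {x : K} (hx : ¬ IsIntegral ℤ x) : Real.log 2 ≤ HF x := by
  obtain ⟨v, hv⟩ := two_le_place hx
  have hx0 : x ≠ 0 := by
    rintro rfl
    exact hx isIntegral_zero
  have hfin : (Function.support fun v : FinitePlace K => Real.posLog (v x)).Finite := by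
    refine (FinitePlace.hasFiniteMulSupport hx0).subset ?_
    intro w hw
    rw [Function.mem_support] at hw
    rw [Function.mem_mulSupport]
    intro h
    apply hw
    rw [h, Real.posLog_one]
  have h1 := single_le_finsum v hfin fun w => Real.posLog_nonneg
  have h2 : Real.log 2 ≤ Real.posLog (v x) := by
    rw [Real.posLog_eq_log (by rw [abs_of_nonneg (apply_nonneg v x)]; linarith)]
    exact Real.log_le_log (by norm_num) hv
  exact h2.trans h1

end Pool.Agent.W666.DY
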