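import Mathlib
import Pool.Agent.W666.DY.Heights

/-!
# A lower bound for the canonical height of wandering points
-/

set_option autoImplicit false

open Finset Polynomial Module IntermediateField Filter Topology NumberField

namespace Pool.Agent.W666.DY

open Pool.Agent.H388SL Pool.Agent.W666.DL Pool.Agent.W666.DM Pool.Agent.W666.DN

section drops

variable {K : Type*} [Field K] [NumberField K]

lemma adj_ph (f : ℤ[X]) (x : K) : ℚ⟮ph f x⟯ ≤ ℚ⟮x⟯ := by
  rw [adjoin_simple_le_iff]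
  have h1 := ph_hom (algebraMap ℚ⟮x⟯ K) f 1 (AdjoinSimple.gen ℚ x)
  rw [gen_map] at h1
  simp only [Function.iterate_one] at h1
  rw [← h1]
  exact (ph f (AdjoinSimple.gen ℚ x)).2

lemma rr_ph_mul (f : ℤ[X]) (x : K) : ∃ t : ℕ, rr (ph f x) = rr x * t :=
  ⟨_, (rr_mul ℚ⟮ph f x⟯ x (adj_ph f x)).symm⟩

lemma rr_ph_eq_iff (f : ℤ[X]) (x : K) : rr (ph f x) = rr x ↔ ℚ⟮ph f x⟯ = ℚ⟮x⟯ := by
  constructor
  · intro h
    exact eq_of_le_of_finrank_eq' (adj_ph f x) h
  · intro h
    change finrank ℚ⟮ph f x⟯ K = finrank ℚ⟮x⟯ K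
    rw [h]

/-- the set of degree drops -/
def drops (f : ℤ[X]) (α : K) : Set ℕ := {n | ℚ⟮(ph f)^[n + 1] α⟯ ≠ ℚ⟮(ph f)^[n] α⟯}

lemma drops_eq (f : ℤ[X]) (α : K) :
    drops f α = {n | rr ((ph f)^[n + 1] α) ≠ rr ((ph f)^[n] α)} := by
  ext n
  rw [drops, Set.mem_ofPred_eq, Set.mem_ofPred_eq, Function.iterate_succ_apply', ne_eq, ne_eq,
    rr_ph_eq_iff]

lemma rr_le_finrank (x : K) : rr x ≤ finrank ℚ K := by
  have h1 : finrank ℚ ℚ⟮x⟯ * rr x = finrank ℚ K := finrank_mul_finrank ℚ ℚ⟮x⟯ K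
  rw [← h1]
  exact Nat.le_mul_of_pos_left _ finrank_pos

lemma drops_card (f : ℤ[X]) (α : K) : (drops f α).encard ≤ Nat.log 2 (finrank ℚ K) := by
  classical
  set L := Nat.log 2 (finrank ℚ K) with hL
  have hD0 : finrank ℚ K ≠ 0 := (finrank_pos (R := ℚ) (M := K)).ne'
  have h1 : ∀ N : ℕ, 2 ^ ((range N).filter fun n => rr ((ph f)^[n + 1] α) ≠ rr ((ph f)^[n] α)).card ≤
      rr ((ph f)^[N] α) := by
    intro N
    induction N with
    | zero =>
      rw [Finset.range_zero, Finset.filter_empty, Finset.card_empty, pow_zero]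
      exact rr_pos _
    | succ N ih =>
      rw [Finset.range_add_one, Finset.filter_insert]
      obtain ⟨t, ht⟩ := rr_ph_mul f ((ph f)^[N] α)
      rw [← Function.iterate_succ_apply' (ph f)] at ht
      have hpos := rr_pos ((ph f)^[N.succ] α)
      rw [ht] at hpos
      have ht0 : t ≠ 0 := by
        rintro rfl
        rw [mul_zero] at hpos
        exact lt_irrefl _ hpos
      split_ifs with hne
      · rw [Finset.card_insert_of_notMem (fun h => by
          rw [Finset.mem_filter, Finset.mem_range] at h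
          exact lt_irrefl _ h.1), pow_succ]
        have ht1 : t ≠ 1 := by
          rintro rfl
          rw [mul_one] at ht
          exact hne ht
        have ht2 : 2 ≤ t := by omega
        rw [ht]
        exact Nat.mul_le_mul ih ht2
      · rw [ht]
        exact ih.trans (Nat.le_mul_of_pos_right _ (Nat.pos_of_ne_zero ht0))
  have h2 : ∀ N : ℕ, ((range N).filter fun n => rr ((ph f)^[n + 1] α) ≠ rr ((ph f)^[n] α)).card ≤ L := by
    intro N
    rw [hL]
    apply Nat.le_log_of_pow_le (by norm_num)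
    exact (h1 N).trans (rr_le_finrank _)
  by_contra hcon
  push Not at hcon
  have h3 : ((L + 1 : ℕ) : ℕ∞) ≤ (drops f α).encard := by
    have := Order.add_one_le_of_lt hcon
    exact_mod_cast this
  obtain ⟨t, ht1, ht2⟩ := Set.exists_subset_encard_eq h3
  have htf : t.Finite := Set.finite_of_encard_eq_coe ht2
  set T := htf.toFinset with hT
  have hTc : T.card = L + 1 := by
    have h4 : t.encard = T.card := by
      rw [hT, ← Set.encard_coe_eq_coe_finsetCard, htf.coe_toFinset]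
    rw [h4] at ht2
    exact_mod_cast ht2
  set N := T.sup id + 1 with hN
  have hsub : T ⊆ (range N).filter fun n => rr ((ph f)^[n + 1] α) ≠ rr ((ph f)^[n] α) := by
    intro x hx
    rw [Finset.mem_filter, Finset.mem_range]
    refine ⟨?_, ?_⟩
    · have : x ≤ T.sup id := Finset.le_sup (f := id) hx
      omega
    · have h5 : x ∈ drops f α := ht1 (htf.mem_toFinset.mp hx)
      rw [drops_eq] at h5
      exact h5
  have h6 := (Finset.card_le_card hsub).trans (h2 N)
  omega

end drops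

/-- the lower bound -/
theorem final {p k : ℕ} (hp : p.Prime) (hk : 0 < k) {f : ℤ[X]} (hfm : f.Monic)
    (hf : Fr p k f) (hdeg : f.natDegree = p ^ k) :
    ∃ C : ℝ, 0 < C ∧ ∀ (K : Type) [Field K] [NumberField K] (α : K),
      (Function.Injective fun n : ℕ => (ph f)^[n] α) →
      (drops f α).encard ≤ Nat.log 2 (finrank ℚ K) ∧
      ∃ h : ℝ, Tendsto (fun n : ℕ => Height.logHeight₁ ((ph f)^[n] α) /
          ((finrank ℚ K : ℝ) * ((p : ℝ) ^ k) ^ n)) atTop (𝓝 h) ∧
        Real.exp (-(C * ((drops f α).ncard + 1) * Real.sqrt (1 + Real.log (finrank ℚ K)))) /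
          finrank ℚ K ≤ h := by
  have hq : 2 ≤ f.natDegree := by
    rw [hdeg]
    calc 2 ≤ p := hp.two_le
      _ = p ^ 1 := (pow_one p).symm
      _ ≤ p ^ k := Nat.pow_le_pow_right hp.pos hk
  obtain ⟨G, C, hC, hG0, hGlim, hGC, hG2, _⟩ := exists_green f hfm hq
  have hG1 : ∀ z : ℂ, Real.posLog ‖z‖ ≤ G z + C := by
    intro z
    have := (abs_le.mp (hGC z)).2
    linarith
  obtain ⟨C', hC', hcore⟩ := core hp hk hfm hf hq hC hG0 hG1 hG2
  refine ⟨C', by linarith, ?_⟩
  intro K _ _ α hw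
  have hdr := drops_card f α
  refine ⟨hdr, ?_⟩
  obtain ⟨hfin, _⟩ := Set.encard_le_coe_iff_finite_ncard_le.mp hdr
  set r := (drops f α).ncard with hr
  set D := finrank ℚ K with hD
  have hD0 : (0:ℝ) < D := by exact_mod_cast (finrank_pos : 0 < finrank ℚ K)
  set W := ∑ σ : K →ₐ[ℚ] ℂ, G (σ α) with hW
  have hW0 : 0 ≤ W := Finset.sum_nonneg fun σ _ => hG0 _
  have hqr : (f.natDegree : ℝ) = (p:ℝ) ^ k := by rw [hdeg]; push_cast; ring
  have hq0 : (0:ℝ) < (p:ℝ) ^ k := by
    have : (0:ℝ) < p := by exact_mod_cast hp.pos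
    positivity
  refine ⟨(W + HF α) / D, ?_, ?_⟩
  · have h1 : ∀ n : ℕ, Height.logHeight₁ ((ph f)^[n] α) / ((D : ℝ) * ((p : ℝ) ^ k) ^ n) =
        (∑ σ : K →ₐ[ℚ] ℂ, Real.posLog ‖(fun x : ℂ => aeval x f)^[n] (σ α)‖ /
          (f.natDegree : ℝ) ^ n + HF α) / D := by
      intro n
      rw [NumberField.logHeight₁_eq, arch_eq]
      have h2 : ∑ᶠ v : FinitePlace K, Real.posLog (v ((ph f)^[n] α)) =
          (f.natDegree : ℝ) ^ n * HF α := HF_ph f hfm (by omega) α n
      rw [h2, hqr]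
      have h3 : ∀ σ : K →ₐ[ℚ] ℂ, σ ((ph f)^[n] α) = (fun x : ℂ => aeval x f)^[n] (σ α) :=
        fun σ => ph_hom (σ : K →+* ℂ) f n α
      simp_rw [h3]
      rw [← Finset.sum_div]
      field_simp
    simp_rw [h1]
    apply Tendsto.div_const
    apply Tendsto.add_const
    exact tendsto_finsetSum _ fun σ _ => hGlim (σ α)
  · apply div_le_div_of_nonneg_right _ hD0.le
    by_cases hα : IsIntegral ℤ α
    · have h1 := hcore K α hα hw r (by
        rw [← drops_eq, hr, hfin.cast_ncard_eq])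
      have h2 := HF_nonneg α
      linarith
    · have h1 := HF_nonint hα
      have h2 : Real.exp (-(C' * (r + 1) * Real.sqrt (1 + Real.log D))) ≤ Real.log 2 := by
        have h3 : 1 ≤ Real.sqrt (1 + Real.log D) := by
          rw [Real.one_le_sqrt]
          have := Real.log_natCast_nonneg D
          linarith
        have h4 : (1:ℝ) ≤ r + 1 := by
          have : (0:ℝ) ≤ r := Nat.cast_nonneg _
          linarith
        have h5 : 1 ≤ C' * (r + 1) * Real.sqrt (1 + Real.log D) := by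
          have h6 : 1 ≤ C' * (r + 1) := by nlinarith
          nlinarith
        have h7 : Real.exp (-(C' * (r + 1) * Real.sqrt (1 + Real.log D))) ≤ Real.exp (-1) :=
          Real.exp_le_exp.mpr (by linarith)
        have h8 := Real.exp_neg_one_lt_d9
        have h9 := Real.log_two_gt_d9
        linarith
      linarith

/-- the polynomial of the `n`-th iterate -/
noncomputable def itp (f : ℤ[X]) : ℕ → ℤ[X]
  | 0 => X
  | n + 1 => f.comp (itp f n)

lemma ph_itp {A : Type*} [CommRing A] (f : ℤ[X]) (n : ℕ) (x : A) :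
    ph (itp f n) x = (ph f)^[n] x := by
  induction n with
  | zero => simp [itp, ph]
  | succ n ih =>
    rw [Function.iterate_succ_apply', ← ih]
    simp only [itp, ph, aeval_comp]

lemma ph_itp_iter {A : Type*} [CommRing A] (f : ℤ[X]) (m n : ℕ) (x : A) :
    (ph (itp f m))^[n] x = (ph f)^[m * n] x := by
  have h1 : (ph (itp f m) : A → A) = (ph f)^[m] := funext fun y => ph_itp f m y
  rw [h1, ← Function.iterate_mul]

lemma itp_monic {f : ℤ[X]} (hf : f.Monic) (hq : 0 < f.natDegree) (n : ℕ) :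
    (itp f n).Monic ∧ (itp f n).natDegree = f.natDegree ^ n := by
  induction n with
  | zero => exact ⟨monic_X, by simp [itp]⟩
  | succ n ih =>
    have h1 : (itp f n).natDegree ≠ 0 := by
      rw [ih.2]; exact (Nat.pow_pos hq).ne'
    refine ⟨hf.comp ih.1 h1, ?_⟩
    rw [itp, natDegree_comp, ih.2, pow_succ]
    ring

lemma itp_map {p k : ℕ} [Fact p.Prime] {f : ℤ[X]} {c : ZMod p}
    (hf : f.map (Int.castRingHom (ZMod p)) = X ^ (p ^ k) + C c) (n : ℕ) :
    (itp f n).map (Int.castRingHom (ZMod p)) = X ^ ((p ^ k) ^ n) + C (n * c) := by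
  induction n with
  | zero => simp [itp]
  | succ n ih =>
    rw [itp, Polynomial.map_comp, hf, ih, add_comp, pow_comp, X_comp, C_comp, add_pow_char_pow,
      ← C_pow, ZMod.pow_card_pow, ← pow_mul, ← pow_succ, add_assoc, ← C_add]
    push_cast
    congr 2
    ring

lemma Fr_of_map {p N : ℕ} {f : ℤ[X]}
    (hf : f.map (Int.castRingHom (ZMod p)) = X ^ (p ^ N)) : Fr p N f := by
  have h0 : (f - X ^ (p ^ N)).map (Int.castRingHom (ZMod p)) = 0 := by
    rw [Polynomial.map_sub, hf, Polynomial.map_pow, Polynomial.map_X, sub_self]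
  have : C (p : ℤ) ∣ (f - X ^ (p ^ N)) := by
    rw [Polynomial.C_dvd_iff_dvd_coeff]
    intro i
    have h1 := congrArg (fun u => Polynomial.coeff u i) h0
    simp only [Polynomial.coeff_map, Polynomial.coeff_zero, eq_intCast] at h1
    exact (ZMod.intCast_zmod_eq_zero_iff_dvd _ _).1 h1
  obtain ⟨v, hv⟩ := this
  exact ⟨v, by rw [← hv]; ring⟩

/-- the canonical height exists -/
lemma can_lim {f : ℤ[X]} (hfm : f.Monic) (hq : 2 ≤ f.natDegree) (K : Type) [Field K] [NumberField K]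
    (α : K) : ∃ h : ℝ, Tendsto (fun n : ℕ => Height.logHeight₁ ((ph f)^[n] α) /
          ((finrank ℚ K : ℝ) * (f.natDegree : ℝ) ^ n)) atTop (𝓝 h) := by
  obtain ⟨G, C, hC, hG0, hGlim, hGC, hG2, _⟩ := exists_green f hfm hq
  set D := finrank ℚ K with hD
  have hD0 : (0:ℝ) < D := by exact_mod_cast (finrank_pos : 0 < finrank ℚ K)
  have hq0 : (0:ℝ) < f.natDegree := by exact_mod_cast (by omega : 0 < f.natDegree)
  refine ⟨(∑ σ : K →ₐ[ℚ] ℂ, G (σ α) + HF α) / D, ?_⟩
  have h1 : ∀ n : ℕ, Height.logHeight₁ ((ph f)^[n] α) / ((D : ℝ) * (f.natDegree : ℝ) ^ n) =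
      (∑ σ : K →ₐ[ℚ] ℂ, Real.posLog ‖(fun x : ℂ => aeval x f)^[n] (σ α)‖ /
        (f.natDegree : ℝ) ^ n + HF α) / D := by
    intro n
    rw [NumberField.logHeight₁_eq, arch_eq]
    have h2 : ∑ᶠ v : FinitePlace K, Real.posLog (v ((ph f)^[n] α)) =
        (f.natDegree : ℝ) ^ n * HF α := HF_ph f hfm (by omega) α n
    rw [h2]
    have h3 : ∀ σ : K →ₐ[ℚ] ℂ, σ ((ph f)^[n] α) = (fun x : ℂ => aeval x f)^[n] (σ α) :=
      fun σ => ph_hom (σ : K →+* ℂ) f n α
    simp_rw [h3]
    rw [← Finset.sum_div]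
    field_simp
  simp_rw [h1]
  apply Tendsto.div_const
  apply Tendsto.add_const
  exact tendsto_finsetSum _ fun σ _ => hGlim (σ α)

lemma drops_itp {K : Type*} [Field K] [NumberField K] (f : ℤ[X]) {m : ℕ} (α : K) :
    (drops (itp f m) α).encard ≤ (drops f α).encard := by
  have h1 : ∀ n : ℕ, ∃ j, n ∈ drops (itp f m) α → (m * n ≤ j ∧ j < m * (n + 1) ∧ j ∈ drops f α) := by
    intro n
    by_cases hn : n ∈ drops (itp f m) α
    · by_contra hno
      push Not at hno
      apply hn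
      rw [ph_itp_iter, ph_itp_iter]
      have h2 : ∀ t ≤ m, ℚ⟮(ph f)^[m * n + t] α⟯ = ℚ⟮(ph f)^[m * n] α⟯ := by
        intro t
        induction t with
        | zero => intro _; rfl
        | succ t ih =>
          intro ht
          have h3 := (hno (m * n + t)).2 (Nat.le_add_right _ _) (by rw [Nat.mul_succ]; omega)
          rw [drops, Set.mem_ofPred_eq, not_not] at h3
          rw [← ih (by omega)]
          exact h3
      have h4 := h2 m le_rfl
      rw [← Nat.mul_succ] at h4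
      exact h4
    · exact ⟨0, fun h => absurd h hn⟩
  choose j hj using h1
  refine Set.encard_le_encard_of_injOn (f := j) (fun n hn => (hj n hn).2.2) ?_
  intro s hs t ht hst
  obtain ⟨a1, a2, _⟩ := hj s hs
  obtain ⟨b1, b2, _⟩ := hj t ht
  rw [hst] at a1 a2
  by_contra hne
  rcases Nat.lt_or_gt_of_ne hne with h | h
  · have : m * (s + 1) ≤ m * t := Nat.mul_le_mul_left m h
    omega
  · have : m * (t + 1) ≤ m * s := Nat.mul_le_mul_left m h
    omega

/-- the lower bound, `f ≡ X ^ q + c` modulo `p` -/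
theorem final_c {p k : ℕ} (hp : p.Prime) (hk : 0 < k) {f : ℤ[X]} (hfm : f.Monic)
    (hdeg : f.natDegree = p ^ k) (c : ZMod p)
    (hf : f.map (Int.castRingHom (ZMod p)) = X ^ (p ^ k) + C c) :
    ∃ C : ℝ, 0 < C ∧ ∀ (K : Type) [Field K] [NumberField K] (α : K),
      (Function.Injective fun n : ℕ => (ph f)^[n] α) →
      (drops f α).encard ≤ Nat.log 2 (finrank ℚ K) ∧
      ∃ h : ℝ, Tendsto (fun n : ℕ => Height.logHeight₁ ((ph f)^[n] α) /
          ((finrank ℚ K : ℝ) * (f.natDegree : ℝ) ^ n)) atTop (𝓝 h) ∧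
        Real.exp (-(C * ((drops f α).ncard + 1) * Real.sqrt (1 + Real.log (finrank ℚ K)))) /
          finrank ℚ K ≤ h := by
  have : Fact p.Prime := ⟨hp⟩
  have hq : 2 ≤ f.natDegree := by
    rw [hdeg]
    calc 2 ≤ p := hp.two_le
      _ = p ^ 1 := (pow_one p).symm
      _ ≤ p ^ k := Nat.pow_le_pow_right hp.pos hk
  set g := itp f p with hg
  obtain ⟨hgm, hgd⟩ := itp_monic hfm (by omega) p
  have hgmap : g.map (Int.castRingHom (ZMod p)) = X ^ (p ^ (k * p)) := by
    rw [hg, itp_map hf, CharP.cast_eq_zero, zero_mul, C_0, add_zero, ← pow_mul]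
  have hgdeg : g.natDegree = p ^ (k * p) := by rw [hg, hgd, hdeg, ← pow_mul]
  obtain ⟨C, hC, hmain⟩ := final hp (Nat.mul_pos hk hp.pos) hgm (Fr_of_map hgmap) hgdeg
  refine ⟨C, hC, ?_⟩
  intro K _ _ α hw
  have hdr := drops_card f α
  refine ⟨hdr, ?_⟩
  obtain ⟨hfin, _⟩ := Set.encard_le_coe_iff_finite_ncard_le.mp hdr
  obtain ⟨h, hlim⟩ := can_lim hfm hq K α
  refine ⟨h, hlim, ?_⟩
  have hwg : Function.Injective fun n : ℕ => (ph g)^[n] α := by
    intro a b hab
    have hab' : (ph g)^[a] α = (ph g)^[b] α := hab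
    rw [hg, ph_itp_iter, ph_itp_iter] at hab'
    exact Nat.eq_of_mul_eq_mul_left hp.pos (hw hab')
  obtain ⟨_, h', hlim', hlow⟩ := hmain K α hwg
  have hsub : Tendsto (fun n : ℕ => p * n) atTop atTop :=
    tendsto_id.const_mul_atTop' hp.pos
  have h1 := hlim.comp hsub
  have h2 : (fun n : ℕ => Height.logHeight₁ ((ph f)^[n] α) /
      ((finrank ℚ K : ℝ) * (f.natDegree : ℝ) ^ n)) ∘ (fun n : ℕ => p * n) =
      fun n : ℕ => Height.logHeight₁ ((ph g)^[n] α) /
          ((finrank ℚ K : ℝ) * ((p : ℝ) ^ (k * p)) ^ n) := by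
    funext n
    rw [Function.comp_apply, hg, ph_itp_iter, hdeg]
    push_cast
    rw [← pow_mul, ← pow_mul, mul_assoc]
  rw [h2] at h1
  have heq : h = h' := tendsto_nhds_unique h1 hlim'
  rw [heq]
  refine le_trans ?_ hlow
  have hD0 : (0:ℝ) < finrank ℚ K := by exact_mod_cast (finrank_pos : 0 < finrank ℚ K)
  apply div_le_div_of_nonneg_right _ hD0.le
  apply Real.exp_le_exp.mpr
  rw [neg_le_neg_iff]
  apply mul_le_mul_of_nonneg_right _ (Real.sqrt_nonneg _)
  apply mul_le_mul_of_nonneg_left _ hC.le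
  have h3 : (drops g α).ncard ≤ (drops f α).ncard := by
    have h4 := drops_itp f (m := p) α
    have h5 : (drops g α).Finite := by
      apply Set.finite_of_encard_le_coe (k := Nat.log 2 (finrank ℚ K))
      exact h4.trans hdr
    rw [← hfin.cast_ncard_eq, ← h5.cast_ncard_eq] at h4
    exact_mod_cast h4
  have h4 : ((drops g α).ncard : ℝ) ≤ (drops f α).ncard := by exact_mod_cast h3
  linarith

end Pool.Agent.W666.DY
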